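import Pool.Agent.Helper59.EJ.Defs

/-!
# EJ-1. The condition AF
-/

set_option autoImplicit false

namespace Pool.Agent.Helper59.EJ

universe u

open Pool.Agent.Helper98.Engel Pool.Agent.Helper59.EI Subgroup

variable {G : Type u} [Group G]

/-- for an elementary abelian `A` all `z ^ p` are `1`, so `A = c` is finite -/
theorem AF.thin (h : AF G) {p : ℕ} (hp : p.Prime) : Thin p G := by
  intro A h1 h2
  obtain ⟨c, hc, hcA, hx⟩ := h p hp A h2
  refine hc.subset fun x hxA => ?_
  obtain ⟨y, hy, z, hz, hxy⟩ := hx x hxA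
  rw [h1 z hz, mul_one] at hxy
  rw [hxy]
  exact hy

/-- generators of a subgroup of a subgroup -/
private theorem AFB_gen {B : Subgroup G} {r : ℕ}
    (hr : ∀ H : Subgroup G, H ≤ B → H.FG →
      ∃ T : Finset G, T.card ≤ r ∧ Subgroup.closure (T : Set G) = H)
    {K : Subgroup B} (hK : K.FG) :
    ∃ T : Finset B, T.card ≤ r ∧ Subgroup.closure (T : Set B) = K := by
  classical
  obtain ⟨S, hS⟩ := hK
  have hmap : (K.map B.subtype).FG := by
    refine ⟨S.image B.subtype, ?_⟩
    rw [Finset.coe_image, ← MonoidHom.map_closure, hS]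
  have hle : K.map B.subtype ≤ B := by
    rintro _ ⟨x, _, rfl⟩
    exact x.2
  obtain ⟨T, hT, hcl⟩ := hr _ hle hmap
  have hTB : ∀ x ∈ T, x ∈ B := by
    intro x hx
    apply hle
    rw [← hcl]
    exact Subgroup.subset_closure hx
  refine ⟨T.subtype (fun x => x ∈ B), ?_, ?_⟩
  · rw [Finset.card_subtype]
    exact (Finset.card_filter_le _ _).trans hT
  · apply Subgroup.map_injective B.subtype_injective
    rw [MonoidHom.map_closure, ← hcl]
    congr 1
    ext x
    constructor
    · rintro ⟨y, hy, rfl⟩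
      have := Finset.mem_subtype.1 hy
      exact this
    · intro hx
      exact ⟨⟨x, hTB x hx⟩, Finset.mem_subtype.2 hx, rfl⟩

/-- `B` abelian of rank `≤ r`. Suppose that there is no finite `c`. Then there are `p ^ r + 1` elements
of `B` in different cosets of `{z ^ p}`. They generate a subgroup generated by `r` elements `t i`;
modulo `p`-th powers every element is one of the `∏ t i ^ a i`, `0 ≤ a i < p`. -/
theorem FR.af (h : FR G) : AF G := by
  classical
  intro p hp B hB
  obtain ⟨r, hr⟩ := h B hB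
  let _ : CommGroup B := { (inferInstance : Group B) with
    mul_comm := fun x y => Subtype.ext (hB _ x.2 _ y.2) }
  set P : Subgroup B := (powMonoidHom p : B →* B).range with hP
  have hfin : ((⊤ : Subgroup (B ⧸ P)) : Set (B ⧸ P)).Finite := by
    refine finite_of_finRank hp ?_ ?_ ⟨r, ?_⟩
    · intro x _
      obtain ⟨y, rfl⟩ := QuotientGroup.mk_surjective x
      rw [← QuotientGroup.mk_pow, QuotientGroup.eq_one_iff]
      exact ⟨y, rfl⟩
    · intro x _ y _
      exact mul_comm x y
    · intro K _ hK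
      obtain ⟨S, hS⟩ := hK
      have h1 : (Subgroup.closure ((S.image (Quotient.out : B ⧸ P → B) : Finset B) : Set B)).FG :=
        ⟨_, rfl⟩
      obtain ⟨T, hT, hcl⟩ := AFB_gen hr h1
      refine ⟨T.image (QuotientGroup.mk' P), Finset.card_image_le.trans hT, ?_⟩
      rw [Finset.coe_image, ← MonoidHom.map_closure, hcl, MonoidHom.map_closure, ← hS]
      congr 1
      rw [Finset.coe_image, Set.image_image]
      have h2 : ∀ q : B ⧸ P, (QuotientGroup.mk' P) (Quotient.out q) = q := fun q =>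
        QuotientGroup.out_eq' q
      simp only [h2, Set.image_id']
  have hfin' : Finite (B ⧸ P) := by
    have : (Set.univ : Set (B ⧸ P)).Finite := by simpa using hfin
    exact Set.finite_univ_iff.1 this
  refine ⟨Set.range fun q : B ⧸ P => ((Quotient.out q : B) : G), Set.finite_range _, ?_, ?_⟩
  · rintro _ ⟨q, rfl⟩
    exact (Quotient.out q : B).2
  · intro x hx
    have h1 : (QuotientGroup.mk (Quotient.out (QuotientGroup.mk (s := P) (⟨x, hx⟩ : B))) : B ⧸ P)
        = QuotientGroup.mk (⟨x, hx⟩ : B) := QuotientGroup.out_eq' _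
    rw [QuotientGroup.eq] at h1
    obtain ⟨z, hz⟩ := h1
    refine ⟨_, ⟨QuotientGroup.mk (s := P) (⟨x, hx⟩ : B), rfl⟩, (z : G), z.2, ?_⟩
    have h2 := congrArg (fun w : B => (w : G)) hz
    simp only [powMonoidHom_apply, SubmonoidClass.coe_pow, Subgroup.coe_mul, Subgroup.coe_inv] at h2
    rw [h2, mul_inv_cancel_left]

theorem AF.sub (h : AF G) (H : Subgroup G) : AF H := by
  intro p hp B hB
  obtain ⟨c, hc, hcA, hx⟩ := h p hp (B.map H.subtype) (by
    rintro _ ⟨x, hx, rfl⟩ _ ⟨y, hy, rfl⟩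
    rw [← map_mul, ← map_mul, hB x hx y hy])
  refine ⟨H.subtype ⁻¹' c, hc.preimage H.subtype_injective.injOn, ?_, ?_⟩
  · intro x hxc
    obtain ⟨y, hy, hxy⟩ := hcA hxc
    rw [← H.subtype_injective hxy]
    exact hy
  · intro x hxB
    obtain ⟨y, hy, z, ⟨z', hz', rfl⟩, hxy⟩ := hx (H.subtype x) ⟨x, hxB, rfl⟩
    obtain ⟨y', hy', rfl⟩ := hcA hy
    refine ⟨y', hy, z', hz', H.subtype_injective ?_⟩
    rw [hxy, map_mul, map_pow]

theorem FR.sub (h : FR G) (H : Subgroup G) : FR H := by
  classical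
  intro A hA
  obtain ⟨r, hr⟩ := h (A.map H.subtype) (by
    rintro _ ⟨x, hx, rfl⟩ _ ⟨y, hy, rfl⟩
    rw [← map_mul, ← map_mul, hA x hx y hy])
  refine ⟨r, fun K hKA hK => ?_⟩
  obtain ⟨S, hS⟩ := hK
  have hmap : (K.map H.subtype).FG := by
    refine ⟨S.image H.subtype, ?_⟩
    rw [Finset.coe_image, ← MonoidHom.map_closure, hS]
  obtain ⟨T, hT, hcl⟩ := hr _ (Subgroup.map_mono hKA) hmap
  have hTB : ∀ x ∈ T, x ∈ H := by
    intro x hx
    have h1 : x ∈ K.map H.subtype := by
      rw [← hcl]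
      exact Subgroup.subset_closure hx
    obtain ⟨y, _, rfl⟩ := h1
    exact y.2
  refine ⟨T.subtype (fun x => x ∈ H), ?_, ?_⟩
  · rw [Finset.card_subtype]
    exact (Finset.card_filter_le _ _).trans hT
  · apply Subgroup.map_injective H.subtype_injective
    rw [MonoidHom.map_closure, ← hcl]
    congr 1
    ext x
    constructor
    · rintro ⟨y, hy, rfl⟩
      have := Finset.mem_subtype.1 hy
      exact this
    · intro hx
      exact ⟨⟨x, hTB x hx⟩, Finset.mem_subtype.2 hx, rfl⟩

theorem FR.thin (h : FR G) {p : ℕ} (hp : p.Prime) : Thin p G := by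
  intro A h1 h2
  exact finite_of_finRank hp h1 h2 (h A h2)

end Pool.Agent.Helper59.EJ
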