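import Pool.Agent.Helper59.EJ.Defs

/-!
# EJ-2. AF passes to quotients by central infinite cyclic subgroups
-/

set_option autoImplicit false

namespace Pool.Agent.Helper59.EJ

universe u

open Pool.Agent.Helper98.Engel Subgroup

/-- a maximal abelian subgroup of `A` -/
private theorem AFQ_max {G : Type u} [Group G] (A : Subgroup G) :
    ∃ B : Subgroup G, B ≤ A ∧ (∀ x ∈ B, ∀ y ∈ B, x * y = y * x) ∧
      ∀ x ∈ A, (∀ b ∈ B, x * b = b * x) → x ∈ B := by
  obtain ⟨m, hm⟩ := zorn_subset {s : Set G | s ⊆ A ∧ ∀ x ∈ s, ∀ y ∈ s, x * y = y * x} (by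
    intro c hc hch
    refine ⟨⋃₀ c, ⟨?_, ?_⟩, fun s hs => Set.subset_sUnion_of_mem hs⟩
    · exact Set.sUnion_subset fun s hs => (hc hs).1
    · rintro x ⟨s, hs, hx⟩ y ⟨t, ht, hy⟩
      rcases hch.total hs ht with h | h
      · exact (hc ht).2 x (h hx) y hy
      · exact (hc hs).2 x hx y (h hy))
  have hmA : m ⊆ A := hm.prop.1
  have hmc := hm.prop.2
  have h1 : closure m ≤ centralizer m := by
    rw [closure_le]
    intro x hx
    rw [SetLike.mem_coe, mem_centralizer_iff]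
    exact fun y hy => hmc y hy x hx
  have h2 : closure m ≤ centralizer (closure m : Set G) := by
    rw [closure_le]
    intro x hx
    rw [SetLike.mem_coe, mem_centralizer_iff]
    intro y hy
    exact ((mem_centralizer_iff.1 (h1 hy)) x hx).symm
  have hcl : closure m ≤ A := (closure_le _).2 hmA
  refine ⟨closure m, hcl, fun x hx y hy => (mem_centralizer_iff.1 (h2 hy)) x hx,
    fun x hx hxb => ?_⟩
  have h3 : insert x m ∈ {s : Set G | s ⊆ A ∧ ∀ x ∈ s, ∀ y ∈ s, x * y = y * x} := by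
    refine ⟨Set.insert_subset hx hmA, ?_⟩
    rintro a (rfl | ha) b (rfl | hb)
    · rfl
    · exact hxb b (subset_closure hb)
    · exact (hxb a (subset_closure ha)).symm
    · exact hmc a ha b hb
  exact subset_closure (hm.le_of_ge h3 (Set.subset_insert _ _) (Set.mem_insert _ _))

private lemma AFQ_mul {G : Type u} [Group G] {z : G} (hzc : ∀ (n : ℤ) (g : G), z ^ n * g = g * z ^ n)
    {a b t : G} {m n : ℤ} (h1 : a * t = z ^ m * (t * a)) (h2 : b * t = z ^ n * (t * b)) :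
    a * b * t = z ^ (m + n) * (t * (a * b)) := by
  calc a * b * t = a * (b * t) := mul_assoc _ _ _
    _ = a * z ^ n * (t * b) := by rw [h2, mul_assoc]
    _ = z ^ n * (a * t * b) := by rw [← hzc]; simp only [mul_assoc]
    _ = z ^ n * (z ^ m * (t * a) * b) := by rw [h1]
    _ = z ^ (m + n) * (t * (a * b)) := by
      rw [add_comm, zpow_add]
      simp only [mul_assoc]

private lemma AFQ_inv {G : Type u} [Group G] {z : G} (hzc : ∀ (n : ℤ) (g : G), z ^ n * g = g * z ^ n)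
    {a t : G} {m : ℤ} (h1 : a * t = z ^ m * (t * a)) :
    a⁻¹ * t = z ^ (-m) * (t * a⁻¹) := by
  rw [inv_mul_eq_iff_eq_mul, ← mul_assoc, ← hzc]
  calc t = z ^ (-m) * (z ^ m * (t * a) * a⁻¹) := by
        rw [zpow_neg]
        group
    _ = z ^ (-m) * (a * t * a⁻¹) := by rw [h1]
    _ = z ^ (-m) * a * (t * a⁻¹) := by simp only [mul_assoc]

private lemma AFQ_pow {G : Type u} [Group G] {z : G} (hzc : ∀ (n : ℤ) (g : G), z ^ n * g = g * z ^ n)
    {a t : G} {m : ℤ} (h1 : a * t = z ^ m * (t * a)) (k : ℕ) :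
    a ^ k * t = z ^ ((k : ℤ) * m) * (t * a ^ k) := by
  induction k with
  | zero => simp
  | succ k ih =>
    rw [pow_succ]
    have h2 := AFQ_mul hzc ih h1
    rw [h2]
    congr 2
    push_cast
    ring

private lemma AFQ_zpow {G : Type u} [Group G] {z : G}
    (hzc : ∀ (n : ℤ) (g : G), z ^ n * g = g * z ^ n)
    {a t : G} {m : ℤ} (h1 : a * t = z ^ m * (t * a)) (k : ℤ) :
    a ^ k * t = z ^ (k * m) * (t * a ^ k) := by
  obtain ⟨n, rfl | rfl⟩ := k.eq_nat_or_neg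
  · rw [zpow_natCast]
    exact AFQ_pow hzc h1 n
  · rw [zpow_neg a, zpow_natCast, AFQ_inv hzc (AFQ_pow hzc h1 n), neg_mul]

/-- one more centralizer -/
private theorem AFQ_step {G : Type u} [Group G] {z : G}
    (hzc : ∀ (n : ℤ) (g : G), z ^ n * g = g * z ^ n) {Q : Type u} [Group Q] (π : G →* Q)
    (A D : Subgroup G) (hDA : D ≤ A)
    (hA : ∀ a ∈ A, ∀ b ∈ A, ∃ n : ℤ, a * b = z ^ n * (b * a))
    (hAc : ∀ a ∈ A, ∀ b ∈ A, π a * π b = π b * π a) {p : ℕ} (hp : 0 < p)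
    (hD : ∃ d : Set G, d.Finite ∧ d ⊆ A ∧ ∀ x ∈ A, ∃ y ∈ d, ∃ b ∈ D, ∃ w ∈ A,
      π x = π y * (π b * π w ^ p)) {t : G} (ht : t ∈ A) :
    ∃ d : Set G, d.Finite ∧ d ⊆ A ∧ ∀ x ∈ A, ∃ y ∈ d, ∃ b ∈ D, b * t = t * b ∧ ∃ w ∈ A,
      π x = π y * (π b * π w ^ p) := by
  -- the image of the pairing with `t`
  let I : AddSubgroup ℤ :=
    { carrier := {n | ∃ a ∈ D, a * t = z ^ n * (t * a)}
      zero_mem' := ⟨1, one_mem _, by simp⟩
      add_mem' := by
        rintro m n ⟨a, ha, h1⟩ ⟨b, hb, h2⟩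
        exact ⟨a * b, mul_mem ha hb, AFQ_mul hzc h1 h2⟩
      neg_mem' := by
        rintro m ⟨a, ha, h1⟩
        exact ⟨a⁻¹, inv_mem ha, AFQ_inv hzc h1⟩ }
  obtain ⟨n0, hn0⟩ := Int.subgroup_cyclic I
  have hn0I : n0 ∈ I := by rw [hn0]; exact AddSubgroup.mem_closure_singleton_self n0
  obtain ⟨d0, hd0, hd1⟩ := hn0I
  have hd0A := hDA hd0
  obtain ⟨d, hdf, hdA, hd⟩ := hD
  refine ⟨Set.image2 (fun (y : G) (r : ℤ) => y * d0 ^ r) d (Set.Ico 0 (p : ℤ)),
    hdf.image2 _ (Set.finite_Ico _ _), ?_, ?_⟩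
  · rintro _ ⟨y, hy, r, -, rfl⟩
    exact mul_mem (hdA hy) (zpow_mem hd0A r)
  intro x hx
  obtain ⟨y, hy, b, hb, w, hw, h1⟩ := hd x hx
  obtain ⟨m, hm⟩ := hA b (hDA hb) t ht
  have hmI : m ∈ I := ⟨b, hb, hm⟩
  rw [hn0, AddSubgroup.mem_closure_singleton] at hmI
  obtain ⟨k, hk⟩ := hmI
  rw [smul_eq_mul] at hk
  set b1 := d0 ^ (-k) * b with hb1
  have hb1D : b1 ∈ D := mul_mem (zpow_mem hd0 _) hb
  have hb1t : b1 * t = t * b1 := by
    have h2 := AFQ_mul hzc (AFQ_zpow hzc hd1 (-k)) hm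
    rw [← hk, neg_mul, neg_add_cancel, zpow_zero, one_mul] at h2
    exact h2
  have hbb : b = d0 ^ (k % p) * ((d0 ^ (k / p)) ^ p * b1) := by
    rw [hb1, ← zpow_natCast, ← zpow_mul, ← mul_assoc, ← zpow_add]
    have h3 : k % (p : ℤ) + k / (p : ℤ) * (p : ℤ) = k := by
      rw [mul_comm]
      exact Int.emod_add_mul_ediv k p
    rw [h3, ← mul_assoc, ← zpow_add, add_neg_cancel, zpow_zero, one_mul]
  have hp' : (0 : ℤ) < p := by exact_mod_cast hp
  refine ⟨y * d0 ^ (k % p), ⟨y, hy, _, ⟨Int.emod_nonneg _ hp'.ne', Int.emod_lt_of_pos _ hp'⟩, rfl⟩,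
    b1, hb1D, hb1t, d0 ^ (k / p) * w, mul_mem (zpow_mem hd0A _) hw, ?_⟩
  have hc1 : Commute (π (d0 ^ (k / p))) (π w) := hAc _ (zpow_mem hd0A _) _ hw
  have hc2 : Commute (π (d0 ^ (k / p)) ^ p) (π b1) :=
    Commute.pow_left (hAc _ (zpow_mem hd0A _) _ (hDA hb1D)) p
  clear_value b1
  rw [h1, map_mul π (d0 ^ (k / p)), hc1.mul_pow]
  conv_lhs => rw [hbb, map_mul π, map_mul π, map_pow, hc2.eq]
  rw [map_mul π]
  simp only [mul_assoc]

private theorem AFQ_fin {G : Type u} [Group G] {z : G}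
    (hzc : ∀ (n : ℤ) (g : G), z ^ n * g = g * z ^ n) {Q : Type u} [Group Q] (π : G →* Q)
    (A : Subgroup G)
    (hA : ∀ a ∈ A, ∀ b ∈ A, ∃ n : ℤ, a * b = z ^ n * (b * a))
    (hAc : ∀ a ∈ A, ∀ b ∈ A, π a * π b = π b * π a) {p : ℕ} (hp : 0 < p)
    {c : Set G} (hc : c.Finite) :
    c ⊆ A → ∃ d : Set G, d.Finite ∧ d ⊆ A ∧ ∀ x ∈ A, ∃ y ∈ d, ∃ b ∈ A,
      (∀ t ∈ c, b * t = t * b) ∧ ∃ w ∈ A, π x = π y * (π b * π w ^ p) := by
  induction c, hc using Set.Finite.induction_on with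
  | empty =>
    intro _
    refine ⟨{1}, Set.finite_singleton _, ?_, fun x hx => ⟨1, rfl, x, hx, ?_, 1, one_mem _, ?_⟩⟩
    · rintro _ rfl
      exact one_mem _
    · rintro t ⟨⟩
    · simp
  | @insert t c htc hcf ih =>
    intro hcA
    obtain ⟨d, hdf, hdA, hd⟩ := ih ((Set.subset_insert _ _).trans hcA)
    obtain ⟨d', hdf', hdA', hd'⟩ := AFQ_step hzc π A (A ⊓ centralizer c) inf_le_left hA hAc hp
      ⟨d, hdf, hdA, fun x hx => by
        obtain ⟨y, hy, b, hb, hbt, w, hw, h1⟩ := hd x hx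
        exact ⟨y, hy, b, mem_inf.2 ⟨hb, mem_centralizer_iff.2 fun t ht => (hbt t ht).symm⟩, w, hw,
          h1⟩⟩ (hcA (Set.mem_insert t c))
    refine ⟨d', hdf', hdA', fun x hx => ?_⟩
    obtain ⟨y, hy, b, hb, hbt, w, hw, h1⟩ := hd' x hx
    refine ⟨y, hy, b, hb.1, ?_, w, hw, h1⟩
    rintro s (rfl | hs)
    · exact hbt
    · exact ((mem_centralizer_iff.1 hb.2) s hs).symm

/-- Let `B'` be an abelian subgroup of `G ⧸ Z`, `A` its preimage; commutators of elements of `A` lie in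
`Z ≤ center`, so `x ↦ [x, b]` is a homomorphism `A → Z` for `b ∈ A`. Let `B` be a maximal abelian
subgroup of `A` and `c ⊆ B` finite with `B = c B ^ p` (by `AF G`). If `x ∈ A` commutes with `c`, the
image of `b ↦ [b, x]` on `B` is a `p`-divisible subgroup of `Z`, so trivial: so `x ∈ B`, and `B` is
the centraliser of `c` in `A`. For every finite set `c`, `A` is a finite union of cosets of
`C_A(c) A ^ p Z` (one step for every element of `c`, the image of the pairing being cyclic). -/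
theorem AF.quot {G : Type u} [Group G] (h : AF G) {z : G} (hz : z ∈ center G)
    (hinf : ∀ n : ℕ, 0 < n → z ^ n ≠ 1) (Z : Subgroup G) [Z.Normal] (hZ : Z = zpowers z) :
    AF (G ⧸ Z) := by
  intro p hp B' hB'
  have hzc : ∀ (n : ℤ) (g : G), z ^ n * g = g * z ^ n := fun n g =>
    ((mem_center_iff.1 (zpow_mem hz n)) g).symm
  have hinj : Function.Injective fun n : ℤ => z ^ n := by
    rw [injective_zpow_iff_not_isOfFinOrder, isOfFinOrder_iff_pow_eq_one]
    rintro ⟨n, hn, h1⟩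
    exact hinf n hn h1
  set π : G →* G ⧸ Z := QuotientGroup.mk' Z with hπ
  set A : Subgroup G := B'.comap π with hAdef
  have hAc : ∀ a ∈ A, ∀ b ∈ A, π a * π b = π b * π a := fun a ha b hb => hB' _ ha _ hb
  have hA : ∀ a ∈ A, ∀ b ∈ A, ∃ n : ℤ, a * b = z ^ n * (b * a) := by
    intro a ha b hb
    have h1 : ((b * a : G) : G ⧸ Z) = ((a * b : G) : G ⧸ Z) := (hAc a ha b hb).symm
    rw [QuotientGroup.eq, hZ, mem_zpowers_iff] at h1
    obtain ⟨n, hn⟩ := h1
    exact ⟨n, by rw [hzc, hn, mul_inv_cancel_left]⟩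
  obtain ⟨B, hBA, hBc, hBmax⟩ := AFQ_max A
  obtain ⟨c, hcf, hcB, hc⟩ := h p hp B hBc
  have hcen : ∀ x ∈ A, (∀ t ∈ c, x * t = t * x) → x ∈ B := by
    intro x hx hxc
    refine hBmax x hx ?_
    have key : ∀ N : ℕ, ∀ b ∈ B, ∀ n : ℤ, n.natAbs ≤ N → b * x = z ^ n * (x * b) → n = 0 := by
      intro N
      induction N with
      | zero =>
        intro b _ n hn _
        exact Int.natAbs_eq_zero.1 (Nat.le_zero.1 hn)
      | succ N ih =>
        intro b hb n hn hbn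
        obtain ⟨y, hy, w, hw, rfl⟩ := hc b hb
        obtain ⟨m, hm⟩ := hA w (hBA hw) x hx
        have h1 : y * x = z ^ (0 : ℤ) * (x * y) := by
          rw [zpow_zero, one_mul, hxc y hy]
        have h2 := AFQ_mul hzc h1 (AFQ_pow hzc hm p)
        rw [h2] at hbn
        have h3 : 0 + (p : ℤ) * m = n := hinj (mul_right_cancel hbn)
        rw [zero_add] at h3
        have h4 : m = 0 := by
          by_contra hm0
          refine hm0 (ih w hw m ?_ hm)
          have h5 : n.natAbs = p * m.natAbs := by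
            rw [← h3, Int.natAbs_mul, Int.natAbs_natCast]
          have h6 := hp.two_le
          have h7 : 0 < m.natAbs := Int.natAbs_pos.2 hm0
          have h8 : 2 * m.natAbs ≤ p * m.natAbs := Nat.mul_le_mul_right _ h6
          omega
        rw [← h3, h4, mul_zero]
    intro b hb
    obtain ⟨n, hn⟩ := hA b (hBA hb) x hx
    have h1 := key _ b hb n le_rfl hn
    rw [h1, zpow_zero, one_mul] at hn
    exact hn.symm
  obtain ⟨d, hdf, hdA, hd⟩ := AFQ_fin hzc π A hA hAc hp.pos hcf (hcB.trans hBA)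
  refine ⟨π '' Set.image2 (fun y t : G => y * t) d c, (hdf.image2 _ hcf).image _, ?_, ?_⟩
  · rintro _ ⟨_, ⟨y, hy, t, ht, rfl⟩, rfl⟩
    exact mul_mem (hdA hy) (hBA (hcB ht))
  intro x hx
  obtain ⟨x, rfl⟩ := QuotientGroup.mk'_surjective Z x
  obtain ⟨y, hy, b, hb, hbt, w, hw, h1⟩ := hd x hx
  obtain ⟨t, ht, w', hw', h2⟩ := hc b (hcen b hb hbt)
  refine ⟨π (y * t), ⟨_, ⟨y, hy, t, ht, rfl⟩, rfl⟩, π (w' * w), mul_mem (hBA hw') hw, ?_⟩
  have hc1 : Commute (π w') (π w) := hAc _ (hBA hw') _ hw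
  change π x = _
  rw [h1, h2, map_mul π w', hc1.mul_pow, map_mul π, map_mul π, map_pow]
  simp only [mul_assoc]

end Pool.Agent.Helper59.EJ
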