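import Pool.Agent.Helper59.EJ.Defs

/-!
# EJ-7. Rank functions for abelian groups
-/

set_option autoImplicit false

namespace Pool.Agent.Helper59.EJ

universe u

open Pool.Agent.Helper98.Engel Subgroup

/-- An abelian group has a rank function or contains an infinite independent sequence. (If the rank of
the `ℤ`-module is less than `ℵ₀` use the rank as rank function, see `RF.of_finRank` in
Helper98/Engel/Rank.lean; otherwise there is an infinite independent family.) -/
theorem RF_or_indep (A : Type u) [CommGroup A] :
    RF (⊤ : Subgroup A) ∨ ∃ f : ℕ → A, LinearIndependent ℤ (fun i => Additive.ofMul (f i)) := by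
  classical
  by_cases hrk : Module.rank ℤ (Additive A) < Cardinal.aleph0
  · left
    let sm : Subgroup A → Submodule ℤ (Additive A) := fun X =>
      AddSubgroup.toIntSubmodule (Subgroup.toAddSubgroup X)
    have hsm : ∀ X (a : A), (Additive.ofMul a) ∈ sm X ↔ a ∈ X := fun X a => Iff.rfl
    have hmono : Monotone sm := fun X Y h x hx => h hx
    have hlt : ∀ N : Submodule ℤ (Additive A), Module.rank ℤ N < Cardinal.aleph0 :=
      fun N => lt_of_le_of_lt (Submodule.rank_le N) hrk
    refine ⟨fun X => (Module.rank ℤ (sm X)).toNat, ?_, ?_⟩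
    · intro X Y h
      exact Cardinal.toNat_le_toNat (Submodule.rank_mono (hmono h)) (hlt _)
    · intro X Y hXY hY he y hy
      have he' : Module.rank ℤ (sm X) = Module.rank ℤ (sm Y) := by
        apply Cardinal.toNat_injOn (hlt _) (hlt _) he
      let N : Submodule ℤ (sm Y) := (sm X).submoduleOf (sm Y)
      have hN : Module.rank ℤ N = Module.rank ℤ (sm X) := by
        apply LinearEquiv.rank_eq
        exact Submodule.submoduleOfEquivOfLe (hmono hXY)
      have h1 := Submodule.rank_quotient_add_rank N
      rw [hN, he'] at h1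
      have h2 : Module.rank ℤ ((sm Y) ⧸ N) = 0 := by
        obtain ⟨a, ha⟩ := Cardinal.lt_aleph0.1 (lt_of_le_of_lt (le_of_le_of_eq
          (self_le_add_right _ _) h1) (hlt (sm Y)))
        obtain ⟨b, hb⟩ := Cardinal.lt_aleph0.1 (hlt (sm Y))
        rw [ha, hb] at h1
        rw [ha]
        have : a + b = b := by exact_mod_cast h1
        have : a = 0 := by omega
        rw [this]; simp
      rw [rank_eq_zero_iff] at h2
      obtain ⟨a, ha, ha2⟩ := h2 (Submodule.Quotient.mk ⟨Additive.ofMul y, hy⟩)
      rw [← Submodule.Quotient.mk_smul, Submodule.Quotient.mk_eq_zero] at ha2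
      have h3 : a • (Additive.ofMul y) ∈ sm X := ha2
      have h4 : y ^ a ∈ X := (hsm X (y ^ a)).1 (by simpa using h3)
      refine ⟨a.natAbs, Int.natAbs_pos.2 ha, ?_⟩
      rcases Int.natAbs_eq a with h | h
      · rw [h, zpow_natCast] at h4; exact h4
      · rw [h, zpow_neg, zpow_natCast] at h4
        exact (Subgroup.inv_mem_iff X).1 h4
  · right
    rw [not_lt] at hrk
    obtain ⟨s, hs, hli⟩ := exists_set_linearIndependent ℤ (Additive A)
    have hinf : Infinite s := by
      rw [Cardinal.infinite_iff, hs]
      exact hrk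
    have hli' : LinearIndependent ℤ (fun x : s => (x : Additive A)) := hli
    refine ⟨fun i => Additive.toMul ((Infinite.natEmbedding s i : s) : Additive A), ?_⟩
    exact hli'.comp (Infinite.natEmbedding s) (Infinite.natEmbedding s).injective

/-- An infinite independent sequence of commuting elements generates a group of infinite rank.
(Suppose every finitely generated subgroup is generated by `r` elements; `⟨f 0, ..., f r⟩` is generated by
`r` elements and its image contains `r + 1` independent elements.) -/
theorem not_finRank_of_indep {G : Type u} [Group G] (f : ℕ → G)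
    (hc : ∀ i j, f i * f j = f j * f i) {P : Type u} [CommGroup P] (φ : closure (Set.range f) →* P)
    (hφ : LinearIndependent ℤ (fun i => Additive.ofMul (φ ⟨f i, subset_closure ⟨i, rfl⟩⟩))) :
    ¬ FinRank (closure (Set.range f)) := by
  classical
  rintro ⟨r, hr⟩
  let C : Subgroup G := closure (Set.range f)
  let F : Finset G := (Finset.range (r + 1)).image f
  have hFC : closure (F : Set G) ≤ C := by
    rw [closure_le]
    intro y hy
    obtain ⟨i, -, rfl⟩ := Finset.mem_image.1 (Finset.mem_coe.1 hy)
    exact subset_closure ⟨i, rfl⟩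
  obtain ⟨T, hT1, hT2⟩ := hr (closure (F : Set G)) hFC ⟨F, rfl⟩
  have hTC : ∀ t ∈ T, t ∈ C := by
    intro t ht
    have h1 : t ∈ closure (T : Set G) := subset_closure ht
    rw [hT2] at h1
    exact hFC h1
  let w : Finset (Additive P) := T.attach.image fun t =>
    Additive.ofMul (φ (⟨t.1, hTC t.1 t.2⟩ : C))
  have hw : w.card ≤ r := by
    refine Finset.card_image_le.trans ?_
    rw [Finset.card_attach]; exact hT1
  have key : ∀ g ∈ closure (T : Set G), ∀ hg : g ∈ C,
      Additive.ofMul (φ (⟨g, hg⟩ : C)) ∈ Submodule.span ℤ (w : Set (Additive P)) := by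
    intro g hg
    have hle : closure (T : Set G) ≤ C := by
      rw [closure_le]; exact fun t ht => hTC t ht
    induction hg using closure_induction with
    | mem x hx =>
      intro hg
      apply Submodule.subset_span
      exact Finset.mem_coe.2 (Finset.mem_image.2 ⟨⟨x, hx⟩, Finset.mem_attach _ _, rfl⟩)
    | one =>
      intro hg
      have h1 : φ (⟨1, hg⟩ : C) = 1 := map_one φ
      rw [h1]
      exact Submodule.zero_mem _
    | mul x y hx hy ihx ihy =>
      intro hg
      have h1 : φ (⟨x * y, hg⟩ : C) = φ ⟨x, hle hx⟩ * φ ⟨y, hle hy⟩ := by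
        rw [← map_mul]; rfl
      rw [h1, ofMul_mul]
      exact Submodule.add_mem _ (ihx (hle hx)) (ihy (hle hy))
    | inv x hx ihx =>
      intro hg
      have h1 : φ (⟨x⁻¹, hg⟩ : C) = (φ ⟨x, hle hx⟩)⁻¹ := by
        rw [← map_inv]; rfl
      rw [h1, ofMul_inv]
      exact Submodule.neg_mem _ (ihx (hle hx))
  have hli : LinearIndependent ℤ (fun i : Fin (r + 1) =>
      Additive.ofMul (φ ⟨f i, subset_closure ⟨i, rfl⟩⟩)) :=
    hφ.comp (fun i : Fin (r + 1) => (i : ℕ)) Fin.val_injective
  have hspan : Set.range (fun i : Fin (r + 1) =>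
      Additive.ofMul (φ ⟨f i, subset_closure ⟨i, rfl⟩⟩)) ≤
      (Submodule.span ℤ (w : Set (Additive P)) : Set (Additive P)) := by
    rintro _ ⟨i, rfl⟩
    refine key (f i) ?_ _
    rw [hT2]
    exact subset_closure (Finset.mem_coe.2 (Finset.mem_image.2 ⟨i, Finset.mem_range.2 i.2, rfl⟩))
  have h2 := linearIndependent_le_span' (R := ℤ) _ hli (w : Set (Additive P)) hspan
  have h3 : r + 1 ≤ w.card := by
    have : ((r + 1 : ℕ) : Cardinal.{u}) ≤ ((w.card : ℕ) : Cardinal.{u}) := by
      simpa using h2
    exact_mod_cast this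
  omega

end Pool.Agent.Helper59.EJ
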