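import Pool.Agent.Helper59.EJ.Tor
import Pool.Agent.Helper59.EJ.RFab

/-!
# EJ-8. Abelian subgroups of the torsion-free quotient
-/

set_option autoImplicit false

namespace Pool.Agent.Helper59.EJ

universe u

open Pool.Agent.Helper98.Engel Subgroup

variable {X : Type u} [Group X]

/-- `(f j)⁻¹ f i (f j) = f i * t`, `t` of finite order, so by `mul_torsion_pow` some power
`f i ^ n i j` commutes with `f j`. Put `m i = ∏_{j ≤ i} n i j`. -/
theorem commuting_powers (h : LNg X) (f : ℕ → X)
    (hc : ∀ i j, ∃ n : ℕ, 0 < n ∧ ((f i)⁻¹ * (f j)⁻¹ * f i * f j) ^ n = 1) :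
    ∃ m : ℕ → ℕ, (∀ i, 0 < m i) ∧
      ∀ i j, f i ^ m i * f j ^ m j = f j ^ m j * f i ^ m i := by
  have h1 : ∀ i j, ∃ n : ℕ, 0 < n ∧ f i ^ n * f j = f j * f i ^ n := by
    intro i j
    obtain ⟨n, hn, he⟩ := mul_torsion_pow h (x := f i) (hc i j)
    refine ⟨n, hn, ?_⟩
    have h2 : f i * ((f i)⁻¹ * (f j)⁻¹ * f i * f j) = (f j)⁻¹ * f i * f j := by group
    rw [h2] at he
    have h3 : ((f j)⁻¹ * f i * f j) ^ n = (f j)⁻¹ * f i ^ n * f j := by
      have h4 := conj_pow (i := n) (a := (f j)⁻¹) (b := f i)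
      rwa [inv_inv] at h4
    rw [h3] at he
    calc f i ^ n * f j = f j * ((f j)⁻¹ * f i ^ n * f j) := by group
      _ = f j * f i ^ n := by rw [he]
  choose n hn hcomm using h1
  refine ⟨fun i => ∏ j ∈ Finset.range (i + 1), n i j, fun i => Finset.prod_pos fun j _ => hn i j, ?_⟩
  have key : ∀ i j, j ≤ i → f i ^ (∏ j ∈ Finset.range (i + 1), n i j) * f j ^
      (∏ l ∈ Finset.range (j + 1), n j l) = f j ^ (∏ l ∈ Finset.range (j + 1), n j l) * f i ^
      (∏ j ∈ Finset.range (i + 1), n i j) := by
    intro i j hij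
    have h2 : n i j ∣ ∏ j ∈ Finset.range (i + 1), n i j :=
      Finset.dvd_prod_of_mem _ (Finset.mem_range.2 (by omega))
    obtain ⟨c, hc⟩ := h2
    have h3 : Commute (f i ^ n i j) (f j) := hcomm i j
    rw [hc, pow_mul]
    exact (h3.pow_pow c _).eq
  intro i j
  rcases le_total j i with hij | hij
  · exact key i j hij
  · exact (key j i hij).symm

/-- Let `A` be an abelian subgroup of `X ⧸ τ`. If it has no rank function then `RF_or_indep` gives an
independent sequence; lift it to `f : ℕ → X`; `commuting_powers`; the subgroup generated by the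
`f i ^ m i` is abelian, so of finite rank, which contradicts `not_finRank_of_indep`. -/
theorem AbRF_quot_tor (h : LNg X) (hr : FR X) (τ : Subgroup X) [τ.Normal]
    (hτ : ∀ x, x ∈ τ ↔ ∃ n : ℕ, 0 < n ∧ x ^ n = 1) : AbRF (X ⧸ τ) := by
  intro A hA
  let _ : CommGroup A := { (inferInstance : Group A) with
    mul_comm := fun x y => Subtype.ext (hA _ x.2 _ y.2) }
  rcases RF_or_indep A with h1 | ⟨f, hf⟩
  · have h2 := RF.map A.subtype h1
    have h3 : (⊤ : Subgroup A).map A.subtype = A := by
      ext x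
      simp
    rwa [h3] at h2
  · exfalso
    have h1 : ∀ i, ∃ g : X, (g : X ⧸ τ) = (f i : X ⧸ τ) := fun i =>
      QuotientGroup.mk_surjective _
    choose g hg using h1
    have hc : ∀ i j, ∃ n : ℕ, 0 < n ∧ ((g i)⁻¹ * (g j)⁻¹ * g i * g j) ^ n = 1 := by
      intro i j
      rw [← hτ, ← QuotientGroup.eq_one_iff]
      rw [QuotientGroup.mk_mul, QuotientGroup.mk_mul, QuotientGroup.mk_mul, QuotientGroup.mk_inv,
        QuotientGroup.mk_inv, hg i, hg j]
      have h2 := hA _ (f i).2 _ (f j).2
      calc ((f i : X ⧸ τ))⁻¹ * ((f j : X ⧸ τ))⁻¹ * (f i : X ⧸ τ) * (f j : X ⧸ τ)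
          = ((f i : X ⧸ τ))⁻¹ * ((f j : X ⧸ τ))⁻¹ * ((f i : X ⧸ τ) * (f j : X ⧸ τ)) := by group
        _ = 1 := by
          rw [h2]
          group
    obtain ⟨m, hm, hcm⟩ := commuting_powers h g hc
    set F : ℕ → X := fun i => g i ^ m i with hF
    have hle : closure (Set.range F) ≤ A.comap (QuotientGroup.mk' τ) := by
      rw [closure_le]
      rintro _ ⟨i, rfl⟩
      rw [SetLike.mem_coe, mem_comap, hF]
      simp only [map_pow, QuotientGroup.mk'_apply]
      rw [hg i]
      exact A.pow_mem (f i).2 _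
    let φ : closure (Set.range F) →* A :=
      ((QuotientGroup.mk' τ).comp (closure (Set.range F)).subtype).codRestrict A
        (fun x => hle x.2)
    have hφ : ∀ i, φ ⟨F i, subset_closure ⟨i, rfl⟩⟩ = f i ^ m i := by
      intro i
      apply Subtype.ext
      change QuotientGroup.mk' τ (g i ^ m i) = ((f i ^ m i : A) : X ⧸ τ)
      rw [map_pow, QuotientGroup.mk'_apply, hg i]
      rfl
    refine not_finRank_of_indep F hcm φ ?_ (hr _ ?_)
    · rw [linearIndependent_iff']
      intro s c hs i hi
      rw [linearIndependent_iff'] at hf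
      have h3 : ∑ i ∈ s, (c i * (m i : ℤ)) • Additive.ofMul (f i) = 0 := by
        rw [← hs]
        refine Finset.sum_congr rfl fun i _ => ?_
        rw [hφ i, ofMul_pow, mul_smul, natCast_zsmul]
      have h4 := hf s _ h3 i hi
      have h5 := hm i
      rcases mul_eq_zero.1 h4 with h6 | h6
      · exact h6
      · exfalso
        have : m i = 0 := by exact_mod_cast h6
        omega
    · intro a ha b hb
      refine Subgroup.closure_induction₂ (p := fun x y _ _ => x * y = y * x) ?_ ?_ ?_ ?_ ?_ ?_ ?_ ha hb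
      · rintro _ _ ⟨i, rfl⟩ ⟨j, rfl⟩
        exact hcm i j
      · intro x _
        simp
      · intro x _
        simp
      · intro x y z _ _ _ h1 h2
        exact (Commute.mul_left (show Commute x z from h1) (show Commute y z from h2)).eq
      · intro y z x _ _ _ h1 h2
        exact (Commute.mul_right (show Commute x y from h1) (show Commute x z from h2)).eq
      · intro x y _ _ h1
        exact (Commute.inv_left (show Commute x y from h1)).eq
      · intro x y _ _ h1
        exact (Commute.inv_right (show Commute x y from h1)).eq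

end Pool.Agent.Helper59.EJ
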