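import Pool.Agent.Helper59.EJ.Defs

/-!
# EJ-12. The ascending chain condition modulo roots
-/

set_option autoImplicit false

namespace Pool.Agent.Helper59.EJ

universe u

open Pool.Agent.Helper98.Engel Subgroup

/-- the same proof as `Ctx.exists_acc` in Helper98/Engel/Family.lean -/
theorem acc_of_RF {G : Type u} [Group G] {T : Set G} (hRF : ∀ M ∈ NN T, RF M)
    (F : Set (Subgroup G)) (hF : F ⊆ NN T) (hne : F.Nonempty) :
    ∃ D ∈ F, ∀ D' ∈ F, D ≤ D' → Root D D' := by
  by_contra hcon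
  have hcon' : ∀ D ∈ F, ∃ D' ∈ F, D ≤ D' ∧ ∃ x ∈ D', ∀ n : ℕ, 0 < n → x ^ n ∉ D := by
    intro D hD
    by_contra hc
    push Not at hc
    exact hcon ⟨D, hD, fun D' hD' hle x hx => hc D' hD' hle x hx⟩
  choose! f hf1 hf2 hf3 using hcon'
  obtain ⟨D₀, hD₀⟩ := hne
  let s : ℕ → Subgroup G := fun n => f^[n] D₀
  have hs : ∀ n, s n ∈ F := by
    intro n
    induction n with
    | zero => exact hD₀
    | succ n ih =>
      change f^[n + 1] D₀ ∈ F
      rw [Function.iterate_succ_apply']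
      exact hf1 _ ih
  have hss : ∀ n, s (n + 1) = f (s n) := fun n => Function.iterate_succ_apply' f n D₀
  have hmono : Monotone s := by
    apply monotone_nat_of_le_succ
    intro n
    rw [hss]
    exact hf2 _ (hs n)
  have hU : sSup (Set.range s) ∈ NN T := by
    apply sSup_mem_NN
    · rintro _ ⟨n, rfl⟩; exact hF (hs n)
    · exact ⟨_, 0, rfl⟩
    · rintro _ ⟨m, rfl⟩ _ ⟨n, rfl⟩
      exact ⟨s (max m n), ⟨_, rfl⟩, hmono (le_max_left _ _), hmono (le_max_right _ _)⟩
  obtain ⟨ρ, hρ1, hρ2⟩ := hRF _ hU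
  have hle : ∀ n, s n ≤ sSup (Set.range s) := fun n => le_sSup ⟨n, rfl⟩
  have hρ : ∀ n, n ≤ ρ (s n) := by
    intro n
    induction n with
    | zero => exact Nat.zero_le _
    | succ n ih =>
      have h1 : ρ (s n) < ρ (s (n + 1)) := by
        apply lt_of_le_of_ne (hρ1 (hmono (Nat.le_succ n)))
        intro he
        obtain ⟨x, hx, hx2⟩ := hf3 _ (hs n)
        rw [← hss] at hx
        obtain ⟨m, hm, hm2⟩ := hρ2 _ _ (hmono (Nat.le_succ n)) (hle _) he x hx
        exact hx2 m hm hm2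
      omega
  have h2 := hρ (ρ (sSup (Set.range s)) + 1)
  have h3 := hρ1 (hle (ρ (sSup (Set.range s)) + 1))
  omega

end Pool.Agent.Helper59.EJ
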