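import Pool.Agent.Helper59.EJ.Tor

/-!
# EJ-13. Central elements of finitely generated nilpotent groups
-/

set_option autoImplicit false

namespace Pool.Agent.Helper59.EJ

universe u

open Pool.Agent.Helper98.Engel Subgroup

variable {X : Type u} [Group X]

private theorem CenP_center_of_gen {S : Set X} (hS : closure S = ⊤) {y : X}
    (h : ∀ a ∈ S, y * a = a * y) : y ∈ center X := by
  have h1 : S ⊆ (centralizer {y} : Subgroup X) := by
    intro a ha
    show a ∈ centralizer {y}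
    rw [mem_centralizer_singleton_iff]
    exact (h a ha).symm
  have h2 : (⊤ : Subgroup X) ≤ centralizer {y} := by
    rw [← hS, closure_le]
    exact h1
  rw [mem_center_iff]
  intro g
  exact mem_centralizer_singleton_iff.1 (h2 (mem_top g))

private theorem CenP_common {S : Set X} (hfin : S.Finite) {z : X}
    (h : ∀ a ∈ S, ∃ k : ℕ, 0 < k ∧ z ^ k * a = a * z ^ k) :
    ∃ m : ℕ, 0 < m ∧ ∀ a ∈ S, z ^ m * a = a * z ^ m := by
  classical
  choose! k hk0 hk using h
  refine ⟨∏ a ∈ hfin.toFinset, k a,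
    Finset.prod_pos fun a ha => hk0 a (hfin.mem_toFinset.1 ha), ?_⟩
  intro a ha
  obtain ⟨j, hj⟩ := Finset.dvd_prod_of_mem k (hfin.mem_toFinset.2 ha)
  rw [hj, pow_mul]
  have h1 : Commute (z ^ k a) a := hk a ha
  exact h1.pow_left j

/-- an element commuting with `D` has a central power, if every element has a power in `D`. Let `a` be
one of finitely many generators; `z` commutes with `a ^ n`, `n > 0`; in the torsion-free nilpotent group
`X ⧸ τ` (`exists_tor`, `tf_quot_tor`, `LNg.rc`) `z` commutes with `a`, so `a⁻¹ z a = z t` with `t` of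
finite order; by `mul_torsion_pow` `(z t) ^ k = z ^ k`, so `z ^ k` commutes with `a`. -/
theorem central_power (hn : Group.IsNilpotent X) (hfg : Group.FG X) {D : Subgroup X}
    (hroot : Root D ⊤) {z : X} (hz : ∀ d ∈ D, z * d = d * z) :
    ∃ m : ℕ, 0 < m ∧ z ^ m ∈ center X := by
  obtain ⟨S, hS, hfin⟩ := Group.fg_iff.1 hfg
  have hL : LNg X := LNg_of_nilpotent hn
  obtain ⟨τ, hτn, hτ⟩ := exists_tor hL
  have hrc : RC (X ⧸ τ) :=
    (hL.of_surjective (QuotientGroup.mk' τ) (QuotientGroup.mk'_surjective τ)).rc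
      (tf_quot_tor τ hτ)
  have hall : ∀ a ∈ S, ∃ k : ℕ, 0 < k ∧ z ^ k * a = a * z ^ k := by
    intro a _
    obtain ⟨n, hn0, hnD⟩ := hroot a (mem_top a)
    have h1 : (a : X ⧸ τ) ^ n * (z : X ⧸ τ) = (z : X ⧸ τ) * (a : X ⧸ τ) ^ n := by
      rw [← QuotientGroup.mk_pow, ← QuotientGroup.mk_mul, ← QuotientGroup.mk_mul,
        hz _ hnD]
    have h2 := hrc _ _ n hn0 h1
    have h3 : z⁻¹ * (a⁻¹ * z * a) ∈ τ := by
      rw [← QuotientGroup.eq_one_iff]
      have h4 : ((z⁻¹ * (a⁻¹ * z * a) : X) : X ⧸ τ) =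
          (z : X ⧸ τ)⁻¹ * ((a : X ⧸ τ)⁻¹ * ((z : X ⧸ τ) * (a : X ⧸ τ))) := by
        rw [mul_assoc a⁻¹ z a]
        rfl
      rw [h4, ← h2]
      group
    obtain ⟨m, hm0, hm⟩ := mul_torsion_pow hL (x := z) (t := z⁻¹ * (a⁻¹ * z * a))
      ((hτ _).1 h3)
    refine ⟨m, hm0, ?_⟩
    have h5 : z * (z⁻¹ * (a⁻¹ * z * a)) = a⁻¹ * z * (a⁻¹)⁻¹ := by group
    rw [h5, conj_pow, inv_inv] at hm
    calc z ^ m * a = a * (a⁻¹ * z ^ m * a) := by group
      _ = a * z ^ m := by rw [hm]
  obtain ⟨m, hm0, hm⟩ := CenP_common hfin hall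
  exact ⟨m, hm0, CenP_center_of_gen hS hm⟩

private theorem CenP_step (Y : Type u) [Group Y] [Group.IsNilpotent Y]
    (ih : Group.FG (Y ⧸ center Y) →
      (∀ z ∈ center (Y ⧸ center Y), ∃ n : ℕ, 0 < n ∧ z ^ n = 1) → Finite (Y ⧸ center Y))
    (hfg : Group.FG Y) (ht : ∀ z ∈ center Y, ∃ n : ℕ, 0 < n ∧ z ^ n = 1) : Finite Y := by
  obtain ⟨S, hS, hfin⟩ := Group.fg_iff.1 hfg
  have hF : Finite (Y ⧸ center Y) := by
    apply ih
    · exact inferInstance
    · intro w hw
      obtain ⟨z, rfl⟩ := QuotientGroup.mk_surjective w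
      have hall : ∀ a ∈ S, ∃ k : ℕ, 0 < k ∧ z ^ k * a = a * z ^ k := by
        intro a _
        have h2 := mem_center_iff.1 hw (a : Y ⧸ center Y)
        have h3 : z⁻¹ * (a⁻¹ * z * a) ∈ center Y := by
          rw [← QuotientGroup.eq_one_iff]
          have h4 : ((z⁻¹ * (a⁻¹ * z * a) : Y) : Y ⧸ center Y) =
              (z : Y ⧸ center Y)⁻¹ *
                ((a : Y ⧸ center Y)⁻¹ * ((z : Y ⧸ center Y) * (a : Y ⧸ center Y))) := by
            rw [mul_assoc a⁻¹ z a]
            rfl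
          rw [h4, ← h2]
          group
        obtain ⟨e, he0, he⟩ := ht _ h3
        refine ⟨e, he0, ?_⟩
        have h5 : a⁻¹ * z * (a⁻¹)⁻¹ = z * (z⁻¹ * (a⁻¹ * z * a)) := by group
        have hc : Commute z (z⁻¹ * (a⁻¹ * z * a)) := mem_center_iff.1 h3 z
        have h6 : a⁻¹ * z ^ e * (a⁻¹)⁻¹ = z ^ e := by
          rw [← conj_pow, h5, hc.mul_pow, he, mul_one]
        rw [inv_inv] at h6
        calc z ^ e * a = a * (a⁻¹ * z ^ e * a) := by group
          _ = a * z ^ e := by rw [h6]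
      obtain ⟨m, hm0, hm⟩ := CenP_common hfin hall
      refine ⟨m, hm0, ?_⟩
      rw [← QuotientGroup.mk_pow, QuotientGroup.eq_one_iff]
      exact CenP_center_of_gen hS hm
  apply finite_of_torsion_gen (inferInstance : Group.IsNilpotent Y) hfin hS
  intro s _
  have h1 := isOfFinOrder_of_finite (s : Y ⧸ center Y)
  obtain ⟨n, hn0, hn⟩ := isOfFinOrder_iff_pow_eq_one.1 h1
  rw [← QuotientGroup.mk_pow, QuotientGroup.eq_one_iff] at hn
  obtain ⟨m, hm0, hm⟩ := ht _ hn
  exact ⟨n * m, Nat.mul_pos hn0 hm0, by rw [pow_mul, hm]⟩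

/-- a finitely generated nilpotent group with periodic centre is finite. Induction on the class: if
`z` is central modulo the centre then `[z, g]` has finite order for each generator `g`, so
`[z ^ e, g] = [z, g] ^ e = 1` for a suitable `e > 0` and all generators; so the centre of
`X ⧸ center X` is periodic, `X ⧸ center X` is finite, so all elements of `X` have finite order;
`finite_of_torsion_gen`. -/
theorem finite_of_center_torsion (hn : Group.IsNilpotent X) (hfg : Group.FG X)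
    (ht : ∀ z ∈ center X, ∃ n : ℕ, 0 < n ∧ z ^ n = 1) : Finite X := by
  have key := Group.nilpotent_center_quotient_ind
    (P := fun (Y : Type u) [Group Y] [Group.IsNilpotent Y] => Group.FG Y →
      (∀ z ∈ center Y, ∃ n : ℕ, 0 < n ∧ z ^ n = 1) → Finite Y) X
    (fun Y _ _ _ _ => inferInstance)
    (fun Y _ _ ih => CenP_step Y ih)
  exact key hfg ht

end Pool.Agent.Helper59.EJ
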