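import Pool.Agent.Helper98.Engel.Family
import Pool.Agent.Helper98.Engel.Defs
import Pool.Agent.Helper59.EI.Rank

/-!
# Left Engel elements in groups of finite abelian subgroup rank: definitions
-/

set_option autoImplicit false

namespace Pool.Agent.Helper59.EJ

universe u

open Pool.Agent.Helper98.Engel Subgroup

/-- abelian subgroups are finite modulo `p`-th powers, for all primes `p` -/
def AF (G : Type u) [Group G] : Prop :=
  ∀ p : ℕ, p.Prime → ∀ B : Subgroup G, (∀ x ∈ B, ∀ y ∈ B, x * y = y * x) →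
    ∃ c : Set G, c.Finite ∧ c ⊆ B ∧ ∀ x ∈ B, ∃ y ∈ c, ∃ z ∈ B, x = y * z ^ p

/-- every nontrivial quotient has a nontrivial centre -/
def ZA (G : Type u) [Group G] : Prop :=
  ∀ W : Subgroup G, W.Normal → W ≠ ⊤ → ∃ z : G, z ∉ W ∧ ∀ g : G, z⁻¹ * g⁻¹ * z * g ∈ W

/-- all abelian subgroups have finite rank -/
def FR (G : Type u) [Group G] : Prop :=
  ∀ A : Subgroup G, (∀ a ∈ A, ∀ b ∈ A, a * b = b * a) → FinRank A

/-- every element of `A` has a power in `D` -/
def Root {G : Type u} [Group G] (D A : Subgroup G) : Prop := ∀ x ∈ A, ∃ n : ℕ, 0 < n ∧ x ^ n ∈ D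

/-- the left Engel elements -/
def LE (G : Type u) [Group G] : Set G := {x | IsLeftEngel x}

/-- the abstract situation of the main argument -/
structure Cx {G : Type u} [Group G] (T : Set G) : Prop where
  lft : ∀ t ∈ T, IsLeftEngel t
  conj : ∀ t ∈ T, ∀ g : G, g * t * g⁻¹ ∈ T
  nrm : ∀ M ∈ NN T, ∀ D : Subgroup G, D ≤ M → closure (T ∩ (D : Set G)) = D → D ≠ M →
    ∃ u ∈ T, u ∈ M ∧ u ∉ D ∧ u ∈ normalizer (D : Set G)
  acc : ∀ F : Set (Subgroup G), F ⊆ NN T → F.Nonempty →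
    ∃ D ∈ F, ∀ D' ∈ F, D ≤ D' → Root D D'
  join : ∀ A B D : Subgroup G, A ∈ NN T → B ∈ NN T → A.FG → B.FG → D.FG → D ≤ A → D ≤ B →
    Root D A → Root D B → LN (A ⊔ B)

end Pool.Agent.Helper59.EJ
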