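import Pool.Agent.Helper59.EJ.CenP
import Pool.Agent.Helper59.EJ.AFQ
import Pool.Agent.Helper59.EJ.AFB
import Pool.Agent.Helper59.EK.ThmT

/-!
# EJ-14a. The join lemma, case of a finite `D`
-/

set_option autoImplicit false

namespace Pool.Agent.Helper59.EJ

universe u

open Pool.Agent.Helper98.Engel Subgroup

private theorem joinA_mem {X : Type u} [Group X] {S : Set X} {x : X} (hx : x ∈ closure S) :
    ∃ F : Set X, F.Finite ∧ F ⊆ S ∧ x ∈ closure F := by
  induction hx using Subgroup.closure_induction with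
  | mem x hx => exact ⟨{x}, Set.finite_singleton x, by simpa using hx, subset_closure rfl⟩
  | one => exact ⟨∅, Set.finite_empty, Set.empty_subset _, one_mem _⟩
  | mul x y _ _ hx hy =>
    obtain ⟨s, h1, h2, h3⟩ := hx
    obtain ⟨s', h1', h2', h3'⟩ := hy
    exact ⟨s ∪ s', h1.union h1', Set.union_subset h2 h2',
      mul_mem (closure_mono Set.subset_union_left h3) (closure_mono Set.subset_union_right h3')⟩
  | inv x _ hx =>
    obtain ⟨s, h1, h2, h3⟩ := hx
    exact ⟨s, h1, h2, inv_mem h3⟩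

private theorem joinA_fg {X : Type u} [Group X] {S : Set X} {A : Subgroup X} (hA : A.FG)
    (hS : closure S = A) : ∃ F : Set X, F.Finite ∧ F ⊆ S ∧ closure F = A := by
  obtain ⟨U, hU⟩ := hA
  have h0 : ∀ u ∈ (U : Set X), ∃ F : Set X, F.Finite ∧ F ⊆ S ∧ u ∈ closure F := by
    intro u hu
    apply joinA_mem
    rw [hS, ← hU]
    exact subset_closure hu
  choose! F hF using h0
  refine ⟨⋃ u ∈ (U : Set X), F u, U.finite_toSet.biUnion (fun u hu => (hF u hu).1),
    Set.iUnion₂_subset (fun u hu => (hF u hu).2.1), ?_⟩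
  apply le_antisymm
  · rw [closure_le]
    refine Set.iUnion₂_subset (fun u hu x hx => ?_)
    rw [← hS]
    exact subset_closure ((hF u hu).2.1 hx)
  · rw [← hU, closure_le]
    intro u hu
    exact closure_mono (Set.subset_biUnion_of_mem (u := F) hu) (hF u hu).2.2

private theorem joinA_exp {X : Type u} [Group X] {F : Set X} (hF : F.Finite)
    (h : ∀ x ∈ F, ∃ n : ℕ, 0 < n ∧ x ^ n = 1) : ∃ m : ℕ, 0 < m ∧ ∀ x ∈ F, x ^ m = 1 := by
  classical
  choose! n hn using h
  refine ⟨∏ x ∈ hF.toFinset, n x, ?_, ?_⟩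
  · apply Finset.prod_pos
    intro x hx
    exact (hn x ((Set.Finite.mem_toFinset hF).1 hx)).1
  · intro x hx
    obtain ⟨k, hk⟩ := Finset.dvd_prod_of_mem n ((Set.Finite.mem_toFinset hF).2 hx)
    rw [hk, pow_mul, (hn x hx).2, one_pow]

private theorem joinA_tor {X : Type u} [Group X] {A D : Subgroup X} (hDA : Root D A)
    (hD : (D : Set X).Finite) {x : X} (hx : x ∈ A) : ∃ n : ℕ, 0 < n ∧ x ^ n = 1 := by
  obtain ⟨n, hn, hxn⟩ := hDA x hx
  have : Finite D := hD
  obtain ⟨k, hk, hk1⟩ := isOfFinOrder_iff_pow_eq_one.1 (isOfFinOrder_of_finite (⟨x ^ n, hxn⟩ : D))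
  refine ⟨n * k, Nat.mul_pos hn hk, ?_⟩
  have := congrArg (Subgroup.subtype D) hk1
  simpa [pow_mul] using this

/-- the case of a finite `D`. All elements of `A` and `B` have finite order. `A`, being finitely
generated, is generated by finitely many elements of `LE X ∩ A`, the same for `B`; let `m > 0` be a
common multiple of their orders. `thmT` (`Thin m X` by `thin_iff` and `AF.thin`): `X` is a finitely
generated subgroup of a locally nilpotent group. -/
theorem join_finite_A {X : Type u} [Group X] (haf : AF X) {A B D : Subgroup X}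
    (hA : Group.IsNilpotent A) (hB : Group.IsNilpotent B) (hAf : A.FG) (hBf : B.FG)
    (hAT : closure (LE X ∩ (A : Set X)) = A) (hBT : closure (LE X ∩ (B : Set X)) = B)
    (hDA : Root D A) (hDB : Root D B) (hD : (D : Set X).Finite) (htop : A ⊔ B = ⊤) :
    Group.IsNilpotent X := by
  classical
  obtain ⟨FA, hFA, hFA1, hFA2⟩ := joinA_fg hAf hAT
  obtain ⟨FB, hFB, hFB1, hFB2⟩ := joinA_fg hBf hBT
  have hF := hFA.union hFB
  have hFgen : closure (FA ∪ FB) = ⊤ := by
    rw [Subgroup.closure_union, hFA2, hFB2, htop]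
  obtain ⟨m, hm, hm1⟩ := joinA_exp hF (by
    rintro x (hx | hx)
    · exact joinA_tor hDA hD (hFA1 hx).2
    · exact joinA_tor hDB hD (hFB1 hx).2)
  have hthin : EI.Thin m X := (EK.thin_iff hm).2 (fun p hp _ => haf.thin hp)
  have hLN := (EK.thmT hm hthin).2
  have h1 : Group.IsNilpotent (closure ((hF.toFinset : Finset X) : Set X)) := by
    apply hLN
    rw [Set.Finite.coe_toFinset]
    rintro x (hx | hx)
    · exact subset_closure ⟨(hFA1 hx).1, hm1 x (Or.inl hx)⟩
    · exact subset_closure ⟨(hFB1 hx).1, hm1 x (Or.inr hx)⟩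
  rw [Set.Finite.coe_toFinset, hFgen] at h1
  exact (Group.isNilpotent_congr (Subgroup.topEquiv (G := X))).1 h1

end Pool.Agent.Helper59.EJ
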