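import Pool.Agent.Helper59.EJ.CenP
import Pool.Agent.Helper59.EJ.AFQ
import Pool.Agent.Helper59.EJ.AFB
import Pool.Agent.Helper59.EK.ThmT
import Pool.Agent.Helper59.EJ.JoinA

/-!
# EJ-14. The join lemma
-/

set_option autoImplicit false

namespace Pool.Agent.Helper59.EJ

universe u

open Pool.Agent.Helper98.Engel Subgroup

/-- the case of a finite `D`. All elements of `A` and `B` have finite order. `A`, being finitely
generated, is generated by finitely many elements of `LE X ∩ A`, the same for `B`; let `m > 0` be a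
common multiple of their orders. `thmT` (`Thin m X` by `thin_iff` and `AF.thin`): `X` is a finitely
generated subgroup of a locally nilpotent group. -/
theorem join_finite {X : Type u} [Group X] (haf : AF X) {A B D : Subgroup X}
    (hA : Group.IsNilpotent A) (hB : Group.IsNilpotent B) (hAf : A.FG) (hBf : B.FG)
    (hAT : closure (LE X ∩ (A : Set X)) = A) (hBT : closure (LE X ∩ (B : Set X)) = B)
    (hDA : Root D A) (hDB : Root D B) (hD : (D : Set X).Finite) (htop : A ⊔ B = ⊤) :
    Group.IsNilpotent X :=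
  join_finite_A haf hA hB hAf hBf hAT hBT hDA hDB hD htop

/-- a central power of `z` in the subgroup `A`. -/
theorem cp_sub {X : Type u} [Group X] {A D : Subgroup X}
    (hA : Group.IsNilpotent A) (hAf : A.FG) (hDA : D ≤ A) (hR : Root D A) {z : X} (hz : z ∈ D)
    (hc : ∀ d ∈ D, z * d = d * z) :
    ∃ m : ℕ, 0 < m ∧ ∀ a ∈ A, z ^ m * a = a * z ^ m := by
  have h1 : Group.FG A := (Group.fg_iff_subgroup_fg A).2 hAf
  obtain ⟨m, hm, hm2⟩ := central_power (X := A) hA h1 (D := D.subgroupOf A)
    (by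
      intro x _
      obtain ⟨n, hn, hn2⟩ := hR x x.2
      exact ⟨n, hn, by rw [mem_subgroupOf]; simpa using hn2⟩)
    (z := ⟨z, hDA hz⟩)
    (by
      intro d hd
      rw [mem_subgroupOf] at hd
      exact Subtype.ext (hc d hd))
  refine ⟨m, hm, fun a ha => ?_⟩
  have h2 := mem_center_iff.1 hm2 ⟨a, ha⟩
  have h3 := congrArg Subtype.val h2
  simpa using h3.symm

/-- an element of infinite order which commutes with `D`. -/
theorem exists_inf {X : Type u} [Group X] {A D : Subgroup X}
    (hA : Group.IsNilpotent A) (hDA : D ≤ A) (hDf : D.FG) (hD : ¬ (D : Set X).Finite) :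
    ∃ z ∈ D, (∀ d ∈ D, z * d = d * z) ∧ ∀ n : ℕ, 0 < n → z ^ n ≠ 1 := by
  by_contra hcon
  push Not at hcon
  apply hD
  have h1 : Group.FG D := (Group.fg_iff_subgroup_fg D).2 hDf
  have h2 : Finite D := by
    refine finite_of_center_torsion (isNilpotent_of_le hDA hA) h1 ?_
    intro z hz
    obtain ⟨n, hn, hn2⟩ := hcon z z.2 (by
      intro d hd
      have h3 := mem_center_iff.1 hz ⟨d, hd⟩
      have h4 := congrArg Subtype.val h3
      simpa using h4.symm)
    exact ⟨n, hn, Subtype.ext (by simpa using hn2)⟩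
  exact Set.toFinite _

/-- a central element of infinite order. -/
theorem exists_cen {X : Type u} [Group X] {A B D : Subgroup X}
    (hA : Group.IsNilpotent A) (hB : Group.IsNilpotent B) (hAf : A.FG) (hBf : B.FG) (hDf : D.FG)
    (hDA : D ≤ A) (hDB : D ≤ B) (hRA : Root D A) (hRB : Root D B) (htop : A ⊔ B = ⊤)
    (hD : ¬ (D : Set X).Finite) :
    ∃ w ∈ D, w ∈ center X ∧ ∀ n : ℕ, 0 < n → w ^ n ≠ 1 := by
  obtain ⟨z, hz, hc, hinf⟩ := exists_inf hA hDA hDf hD
  obtain ⟨m, hm, hm2⟩ := cp_sub hA hAf hDA hRA hz hc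
  obtain ⟨k, hk, hk2⟩ := cp_sub hB hBf hDB hRB hz hc
  refine ⟨z ^ (m * k), pow_mem hz _, ?_, ?_⟩
  · have h1 : A ≤ centralizer {z ^ (m * k)} := by
      intro a ha
      rw [mem_centralizer_singleton_iff]
      have h2 : Commute a (z ^ m) := (hm2 a ha).symm
      have h3 := h2.pow_right k
      rw [← pow_mul] at h3
      exact h3.eq
    have h2 : B ≤ centralizer {z ^ (m * k)} := by
      intro a ha
      rw [mem_centralizer_singleton_iff]
      have h2 : Commute a (z ^ k) := (hk2 a ha).symm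
      have h3 := h2.pow_right m
      rw [← pow_mul, mul_comm k m] at h3
      exact h3.eq
    have h3 : (⊤ : Subgroup X) ≤ centralizer {z ^ (m * k)} := by
      rw [← htop]; exact sup_le h1 h2
    rw [mem_center_iff]
    intro g
    have h4 := h3 (mem_top g)
    rw [mem_centralizer_singleton_iff] at h4
    exact h4
  · intro n hn h
    rw [← pow_mul] at h
    exact hinf _ (Nat.mul_pos (Nat.mul_pos hm hk) hn) h

theorem LE_map {X Y : Type u} [Group X] [Group Y] (f : X →* Y) (hf : Function.Surjective f)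
    {A : Subgroup X} (hA : closure (LE X ∩ (A : Set X)) = A) :
    closure (LE Y ∩ ((A.map f : Subgroup Y) : Set Y)) = A.map f := by
  apply le_antisymm
  · rw [closure_le]; exact Set.inter_subset_right
  · conv_lhs => rw [← hA]
    rw [MonoidHom.map_closure]
    apply Subgroup.closure_mono
    rintro _ ⟨x, ⟨hx1, hx2⟩, rfl⟩
    refine ⟨?_, x, hx2, rfl⟩
    intro y
    obtain ⟨v, rfl⟩ := hf y
    obtain ⟨n, hn⟩ := hx1 v
    exact ⟨n, by rw [← map_eng, hn, map_one]⟩

theorem nil_map {X Y : Type u} [Group X] [Group Y] (f : X →* Y)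
    {A : Subgroup X} (hA : Group.IsNilpotent A) : Group.IsNilpotent (A.map f) :=
  Group.nilpotent_of_surjective (f.subgroupMap A) (f.subgroupMap_surjective A)

theorem fg_map {X Y : Type u} [Group X] [Group Y] (f : X →* Y)
    {A : Subgroup X} (hA : A.FG) : (A.map f).FG := by
  classical
  obtain ⟨S, hS⟩ := hA
  refine ⟨S.image f, ?_⟩
  rw [Finset.coe_image, ← MonoidHom.map_closure, hS]

/-- Induction on `h`. If `D` is finite: `join_finite`. Otherwise `D` is nilpotent, finitely generated
and infinite, so by `finite_of_center_torsion` (contrapositive) there is `z ∈ center D` of infinite order.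
By `central_power` in `A` and in `B` some power `w` of `z` is central in `A` and in `B`, so in `X`. Let
`Z = zpowers w ≤ D`. `X ⧸ Z` satisfies `AF` (`AF.quot`); take the images of `A`, `B`, `D` and
`ρ' Y = ρ (Y.comap (mk' Z))`. `ρ Z > ρ ⊥` since `w` has infinite order (`Z ≤ A`). So `h = h' + 1`, and by
induction `X ⧸ Z` is nilpotent, so `X` is nilpotent. -/
theorem join_aux : ∀ (h : ℕ) (X : Type u) [Group X] (A B D : Subgroup X)
    (ρ : Subgroup X → ℕ), AF X → Group.IsNilpotent A → Group.IsNilpotent B → A.FG → B.FG → D.FG →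
    closure (LE X ∩ (A : Set X)) = A → closure (LE X ∩ (B : Set X)) = B → D ≤ A → D ≤ B →
    Root D A → Root D B → A ⊔ B = ⊤ → Monotone ρ →
    (∀ Y Z : Subgroup X, Y ≤ Z → Z ≤ A → ρ Y = ρ Z → Root Y Z) → ρ A ≤ ρ ⊥ + h →
    Group.IsNilpotent X := by
  intro h
  induction h with
  | zero =>
    intro X _ A B D ρ haf hA hB hAf hBf hDf hAT hBT hDA hDB hRA hRB htop hρ hρ2 hh
    by_cases hD : (D : Set X).Finite
    · exact join_finite haf hA hB hAf hBf hAT hBT hRA hRB hD htop
    · exfalso
      obtain ⟨w, hwD, hwc, hwinf⟩ :=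
        exists_cen hA hB hAf hBf hDf hDA hDB hRA hRB htop hD
      have h1 : zpowers w ≤ A := by
        rw [zpowers_le]; exact hDA hwD
      have h2 : ρ ⊥ = ρ (zpowers w) :=
        le_antisymm (hρ bot_le) ((hρ h1).trans (by simpa using hh))
      obtain ⟨n, hn, hn2⟩ := hρ2 ⊥ (zpowers w) bot_le h1 h2 w (mem_zpowers w)
      exact hwinf n hn (by simpa using hn2)
  | succ h ih =>
    intro X _ A B D ρ haf hA hB hAf hBf hDf hAT hBT hDA hDB hRA hRB htop hρ hρ2 hh
    by_cases hD : (D : Set X).Finite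
    · exact join_finite haf hA hB hAf hBf hAT hBT hRA hRB hD htop
    · obtain ⟨w, hwD, hwc, hwinf⟩ :=
        exists_cen hA hB hAf hBf hDf hDA hDB hRA hRB htop hD
      have h0 : zpowers w ≤ center X := by
        rw [zpowers_le]; exact hwc
      have h1 : zpowers w ≤ A := by
        rw [zpowers_le]; exact hDA hwD
      have h2 : ρ ⊥ ≠ ρ (zpowers w) := by
        intro h2
        obtain ⟨n, hn, hn2⟩ := hρ2 ⊥ (zpowers w) bot_le h1 h2 w (mem_zpowers w)
        exact hwinf n hn (by simpa using hn2)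
      have h3 : ρ ⊥ < ρ (zpowers w) := lt_of_le_of_ne (hρ bot_le) h2
      have hnorm : (zpowers w).Normal := by
        constructor
        intro n hn g
        have h4 := mem_center_iff.1 (h0 hn) g
        rw [h4, mul_assoc, mul_inv_cancel, mul_one]
        exact hn
      let f : X →* X ⧸ zpowers w := QuotientGroup.mk' (zpowers w)
      have hf : Function.Surjective f := QuotientGroup.mk'_surjective _
      have hker : f.ker = zpowers w := QuotientGroup.ker_mk' _
      have hcA : (A.map f).comap f = A := by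
        rw [comap_map_eq, hker]
        exact sup_eq_left.2 h1
      have hcb : (⊥ : Subgroup (X ⧸ zpowers w)).comap f = zpowers w := by
        rw [MonoidHom.comap_bot, hker]
      have hq : Group.IsNilpotent (X ⧸ zpowers w) := by
        refine ih (X ⧸ zpowers w) (A.map f) (B.map f) (D.map f) (fun Y => ρ (Y.comap f))
          (haf.quot hwc hwinf (zpowers w) rfl) (nil_map f hA) (nil_map f hB) (fg_map f hAf)
          (fg_map f hBf) (fg_map f hDf) (LE_map f hf hAT) (LE_map f hf hBT) (map_mono hDA)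
          (map_mono hDB) ?_ ?_ ?_ ?_ ?_ ?_
        · rintro _ ⟨a, ha, rfl⟩
          obtain ⟨n, hn, hn2⟩ := hRA a ha
          exact ⟨n, hn, a ^ n, hn2, by rw [map_pow]⟩
        · rintro _ ⟨a, ha, rfl⟩
          obtain ⟨n, hn, hn2⟩ := hRB a ha
          exact ⟨n, hn, a ^ n, hn2, by rw [map_pow]⟩
        · rw [← Subgroup.map_sup, htop]
          exact map_top_of_surjective f hf
        · intro Y Z hYZ
          exact hρ (comap_mono hYZ)
        · intro Y Z hYZ hZA he
          have h5 : Z.comap f ≤ A := by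
            rw [← hcA]; exact comap_mono hZA
          have h6 := hρ2 (Y.comap f) (Z.comap f) (comap_mono hYZ) h5 he
          intro v hv
          obtain ⟨x, rfl⟩ := hf v
          obtain ⟨n, hn, hn2⟩ := h6 x hv
          exact ⟨n, hn, by rw [← map_pow]; exact hn2⟩
        · change ρ ((A.map f).comap f) ≤ ρ ((⊥ : Subgroup (X ⧸ zpowers w)).comap f) + h
          rw [hcA, hcb]
          omega
      exact Subgroup.isNilpotent_of_ker_le_center f (by rw [hker]; exact h0)

/-- apply `join_aux` to the group `A ⊔ B` and the subgroups `A.subgroupOf _` etc.; with `ρ` from `hRF`,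
`ρ' Y = ρ (Y.map subtype)`, `h = ρ' ⊤`. -/
theorem join_mixed {G : Type u} [Group G] (haf : AF G) {A B D : Subgroup G}
    (hA : Group.IsNilpotent A) (hB : Group.IsNilpotent B) (hAf : A.FG) (hBf : B.FG) (hDf : D.FG)
    (hAT : closure (LE G ∩ (A : Set G)) = A) (hBT : closure (LE G ∩ (B : Set G)) = B)
    (hDA : D ≤ A) (hDB : D ≤ B) (hRA : Root D A) (hRB : Root D B) (hRF : RF A) :
    Group.IsNilpotent (A ⊔ B : Subgroup G) := by
  obtain ⟨ρ, hρ, hρ2⟩ := hRF
  have hnil : ∀ C : Subgroup G, C ≤ A ⊔ B → Group.IsNilpotent C →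
      Group.IsNilpotent (C.subgroupOf (A ⊔ B)) := by
    intro C hC h
    exact (Group.isNilpotent_congr (subgroupOfEquivOfLe hC)).2 h
  have hfg : ∀ C : Subgroup G, C ≤ A ⊔ B → C.FG → (C.subgroupOf (A ⊔ B)).FG := by
    intro C hC h
    rw [← Group.fg_iff_subgroup_fg] at h ⊢
    exact Group.fg_of_surjective (f := (subgroupOfEquivOfLe hC).symm.toMonoidHom)
      (subgroupOfEquivOfLe hC).symm.surjective
  have hLE : ∀ C : Subgroup G, C ≤ A ⊔ B → closure (LE G ∩ (C : Set G)) = C →
      closure (LE (A ⊔ B : Subgroup G) ∩ ((C.subgroupOf (A ⊔ B) : Subgroup (A ⊔ B : Subgroup G)) :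
        Set (A ⊔ B : Subgroup G))) = C.subgroupOf (A ⊔ B) := by
    intro C hC h
    apply le_antisymm
    · rw [closure_le]; exact Set.inter_subset_right
    · have h1 : C ≤ (closure (LE (A ⊔ B : Subgroup G) ∩
          ((C.subgroupOf (A ⊔ B) : Subgroup (A ⊔ B : Subgroup G)) :
          Set (A ⊔ B : Subgroup G)))).map (A ⊔ B).subtype := by
        conv_lhs => rw [← h]
        rw [closure_le]
        rintro x ⟨hx1, hx2⟩
        refine ⟨⟨x, hC hx2⟩, subset_closure ⟨?_, ?_⟩, rfl⟩
        · intro y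
          obtain ⟨n, hn⟩ := hx1 y
          refine ⟨n, ?_⟩
          apply Subtype.ext
          have h2 := map_eng (A ⊔ B).subtype ⟨x, hC hx2⟩ y n
          simp only [coe_subtype] at h2
          rw [h2, hn]; rfl
        · exact hx2
      intro x hx
      rw [mem_subgroupOf] at hx
      obtain ⟨y, hy, hy2⟩ := h1 hx
      have h3 : y = x := Subtype.ext hy2
      rw [← h3]; exact hy
  have hroot : ∀ C E : Subgroup G, Root C E →
      Root (C.subgroupOf (A ⊔ B)) (E.subgroupOf (A ⊔ B)) := by
    intro C E h x hx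
    obtain ⟨n, hn, hn2⟩ := h x hx
    exact ⟨n, hn, by rw [mem_subgroupOf]; simpa using hn2⟩
  have hAl : A ≤ A ⊔ B := le_sup_left
  have hBl : B ≤ A ⊔ B := le_sup_right
  have hDl : D ≤ A ⊔ B := hDA.trans hAl
  refine join_aux (ρ ((A.subgroupOf (A ⊔ B)).map (A ⊔ B).subtype)) (A ⊔ B : Subgroup G)
    (A.subgroupOf (A ⊔ B)) (B.subgroupOf (A ⊔ B)) (D.subgroupOf (A ⊔ B))
    (fun Y => ρ (Y.map (A ⊔ B).subtype)) (haf.sub _) (hnil A hAl hA) (hnil B hBl hB)
    (hfg A hAl hAf) (hfg B hBl hBf) (hfg D hDl hDf) (hLE A hAl hAT) (hLE B hBl hBT)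
    ?_ ?_ (hroot D A hRA) (hroot D B hRB) ?_ ?_ ?_ ?_
  · intro x hx
    rw [mem_subgroupOf] at hx ⊢
    exact hDA hx
  · intro x hx
    rw [mem_subgroupOf] at hx ⊢
    exact hDB hx
  · rw [← subgroupOf_sup hAl hBl, subgroupOf_self]
  · intro Y Z hYZ
    exact hρ (map_mono hYZ)
  · intro Y Z hYZ hZA he y hy
    have h1 : Z.map (A ⊔ B).subtype ≤ A := by
      rintro _ ⟨x, hx, rfl⟩
      exact hZA hx
    obtain ⟨n, hn, v, hv, hv2⟩ := hρ2 _ _ (map_mono hYZ) h1 he y ⟨y, hy, rfl⟩
    refine ⟨n, hn, ?_⟩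
    have h3 : v = y ^ n := Subtype.ext (by simpa using hv2)
    rw [← h3]; exact hv
  · exact Nat.le_add_left _ _

end Pool.Agent.Helper59.EJ
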