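import Pool.Agent.Helper59.EJ.ZAN

/-!
# EJ-11. The normaliser condition for subgroups generated by elements of `T`
-/

set_option autoImplicit false

namespace Pool.Agent.Helper59.EJ

universe u

open Pool.Agent.Helper98.Engel Subgroup

/-- the normaliser condition in the subgroup `M` -/
private theorem nrmT_nc {G : Type u} [Group G] {M N : Subgroup G} (hz : ZA M) (hNM : N ≤ M)
    (hne : N ≠ M) : ∃ g ∈ M, g ∉ N ∧ g ∈ normalizer (N : Set G) := by
  have h1 : N.subgroupOf M ≠ ⊤ := by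
    intro h
    rw [Subgroup.subgroupOf_eq_top] at h
    exact hne (le_antisymm hNM h)
  obtain ⟨g, hg, hgn⟩ := hz.nc h1
  refine ⟨g.1, g.2, hg, ?_⟩
  rw [Subgroup.mem_normalizer_iff] at hgn ⊢
  intro h
  constructor
  · intro hh
    exact (hgn ⟨h, hNM hh⟩).1 hh
  · intro hh
    have hM : h ∈ M := by
      have h2 : g.1⁻¹ * (g.1 * h * g.1⁻¹) * g.1 ∈ M :=
        mul_mem (mul_mem (inv_mem g.2) (hNM hh)) g.2
      have h3 : g.1⁻¹ * (g.1 * h * g.1⁻¹) * g.1 = h := by group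
      rwa [h3] at h2
    exact (hgn ⟨h, hM⟩).2 hh

/-- Zorn: let `E` be maximal with `D ≤ E ≤ M` and `T ∩ E ⊆ D`; `E ≠ M`. By `ZA.nc` in `M` there is
`g ∈ M`, `g ∉ E`, normalising `E`. By maximality some `x ∈ T ∩ (E ⟨g⟩)` is not in `D`; `x` normalises `E`,
so it normalises `T ∩ E = T ∩ D` and `D`. (See `Cher.tnc` in EI/Nc.lean.) -/
theorem nrm_of_ZA {G : Type u} [Group G] {T : Set G} (hT : ∀ t ∈ T, ∀ g : G, g * t * g⁻¹ ∈ T)
    {M D : Subgroup G} (hM : closure (T ∩ (M : Set G)) = M) (hz : ZA M) (hDM : D ≤ M)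
    (hD : closure (T ∩ (D : Set G)) = D) (hne : D ≠ M) :
    ∃ x ∈ T, x ∈ M ∧ x ∉ D ∧ x ∈ normalizer (D : Set G) := by
  by_contra hcon
  push Not at hcon
  set A : Set (Subgroup G) := {N | N ≤ M ∧ ∀ t ∈ T, t ∈ N → t ∈ D} with hA
  obtain ⟨N, hDN, hNmax⟩ := zorn_le_nonempty₀ A (by
    intro c hcA hch y hyc
    refine ⟨sSup c, ⟨sSup_le fun z hz => (hcA hz).1, ?_⟩, fun z hz => le_sSup hz⟩
    intro t ht htc
    rw [Subgroup.mem_sSup_of_directedOn ⟨y, hyc⟩ hch.directedOn] at htc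
    obtain ⟨z, hz, htz⟩ := htc
    exact (hcA hz).2 t ht htz) D ⟨hDM, fun t _ ht => ht⟩
  have hNA : N ∈ A := hNmax.prop
  have hNM : N ≠ M := by
    intro h
    apply hne
    apply le_antisymm hDM
    rw [← hM, Subgroup.closure_le]
    rintro t ⟨ht, htM⟩
    exact hNA.2 t ht (h ▸ htM)
  obtain ⟨g, hgM, hgN, hgn⟩ := nrmT_nc hz hNA.1 hNM
  set N' : Subgroup G := N ⊔ closure {g} with hN'
  have hgN' : g ∈ N' := (le_sup_right : _ ≤ N ⊔ closure {g}) (Subgroup.subset_closure rfl)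
  have hN'M : N' ≤ M := sup_le hNA.1 ((Subgroup.closure_le _).2 (by
    rintro _ rfl; exact hgM))
  have hN'N : N' ≤ normalizer (N : Set G) := sup_le Subgroup.le_normalizer
    ((Subgroup.closure_le _).2 (by rintro _ rfl; exact hgn))
  have key : ∀ t ∈ N', ∀ r ∈ D, t * r * t⁻¹ ∈ D := by
    intro t htN' r hr
    have hr' : r ∈ closure (T ∩ (D : Set G)) := by rw [hD]; exact hr
    refine Subgroup.closure_induction (p := fun r _ => t * r * t⁻¹ ∈ D) ?_ ?_ ?_ ?_ hr'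
    · intro s hs
      apply hNA.2 _ (hT s hs.1 t)
      exact (Subgroup.mem_normalizer_iff.1 (hN'N htN') s).1 (hDN hs.2)
    · simp
    · intro a b _ _ iha ihb
      have h1 : t * (a * b) * t⁻¹ = (t * a * t⁻¹) * (t * b * t⁻¹) := by group
      rw [h1]
      exact mul_mem iha ihb
    · intro a _ iha
      have h1 : t * a⁻¹ * t⁻¹ = (t * a * t⁻¹)⁻¹ := by group
      rw [h1]
      exact inv_mem iha
  have hN'A : N' ∈ A := by
    refine ⟨hN'M, ?_⟩
    intro t ht htN'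
    by_contra htD
    apply hcon t ht (hN'M htN') htD
    rw [Subgroup.mem_normalizer_iff]
    intro r
    refine ⟨key t htN' r, fun hr => ?_⟩
    have h1 := key t⁻¹ (inv_mem htN') _ hr
    have h2 : t⁻¹ * (t * r * t⁻¹) * t⁻¹⁻¹ = r := by group
    rwa [h2] at h1
  exact hgN (hNmax.le_of_ge hN'A le_sup_left hgN')

end Pool.Agent.Helper59.EJ
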