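import Pool.Agent.Helper59.EJ.Defs

/-!
# EJ-5. Torsion in locally nilpotent groups
-/

set_option autoImplicit false

namespace Pool.Agent.Helper59.EJ

universe u

open Pool.Agent.Helper98.Engel Subgroup

variable {X : Type u} [Group X]

private theorem tor_fin (G : Type u) [Group G] [Group.IsNilpotent G] :
    ∀ S : Set G, S.Finite → Subgroup.closure S = ⊤ → ∀ m : ℕ, 0 < m → (∀ s ∈ S, s ^ m = 1) →
      Finite G := by
  apply @Group.nilpotent_center_quotient_ind
    (fun (G : Type u) (_ : Group G) (_ : Group.IsNilpotent G) => ∀ S : Set G, S.Finite →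
      Subgroup.closure S = ⊤ → ∀ m : ℕ, 0 < m → (∀ s ∈ S, s ^ m = 1) → Finite G) G _ _
  · intro G _ _ _ _ _ _ _ _
    infer_instance
  · intro G _ _ ih S hS hcl m hm h1
    have hfq : Finite (G ⧸ Subgroup.center G) := by
      refine ih (QuotientGroup.mk' (Subgroup.center G) '' S) (hS.image _) ?_ m hm ?_
      · rw [← MonoidHom.map_closure, hcl, ← MonoidHom.range_eq_map]
        exact MonoidHom.range_eq_top.2 (QuotientGroup.mk'_surjective _)
      · rintro _ ⟨s, hs, rfl⟩
        rw [← map_pow, h1 s hs, map_one]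
    have hfi : (Subgroup.center G).FiniteIndex := Subgroup.finiteIndex_of_finite_quotient
    set n := (Subgroup.center G).index with hn
    have hn0 : n ≠ 0 := hfi.index_ne_zero
    have h2 : ∀ g : G, g ^ (n * m) = 1 := by
      have h3 : ∀ g : G, (MonoidHom.transferCenterPow G g) ^ m = 1 := by
        intro g
        have hg : g ∈ Subgroup.closure S := by rw [hcl]; exact Subgroup.mem_top g
        induction hg using Subgroup.closure_induction with
        | mem s hs =>
          apply Subtype.ext
          rw [Subgroup.coe_pow, MonoidHom.transferCenterPow_apply, ← pow_mul, mul_comm, pow_mul,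
            h1 s hs, one_pow, Subgroup.coe_one]
        | one => rw [map_one, one_pow]
        | mul x y _ _ hx hy =>
          have hc : Commute (MonoidHom.transferCenterPow G x) (MonoidHom.transferCenterPow G y) :=
            mul_comm' _ _
          rw [map_mul, hc.mul_pow, hx, hy, mul_one]
        | inv x _ hx => rw [map_inv, inv_pow, hx, inv_one]
      intro g
      have := congrArg Subtype.val (h3 g)
      rwa [Subgroup.coe_pow, MonoidHom.transferCenterPow_apply, ← pow_mul,
        Subgroup.coe_one] at this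
    have hFG : Group.FG G := by
      rw [Group.fg_iff]
      exact ⟨S, hcl, hS⟩
    have hZfg : Group.FG (Subgroup.center G) := Subgroup.fg_of_index_ne_zero _
    have hZ : Finite (Subgroup.center G) := by
      let _ : CommGroup (Subgroup.center G) :=
        { (inferInstance : Group (Subgroup.center G)) with mul_comm := mul_comm' }
      refine CommGroup.finite_of_fg_isMulTorsion _ ?_
      intro z
      rw [isOfFinOrder_iff_pow_eq_one]
      refine ⟨n * m, Nat.mul_pos (Nat.pos_of_ne_zero hn0) hm, ?_⟩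
      apply Subtype.ext
      rw [Subgroup.coe_pow, h2, Subgroup.coe_one]
    exact Finite.of_subgroup_quotient (Subgroup.center G)

/-- A nilpotent group generated by finitely many elements of finite order is finite (see `b2_fin` in
EI/B2.lean). -/
theorem finite_of_torsion_gen (hn : Group.IsNilpotent X) {S : Set X} (hS : S.Finite)
    (hgen : closure S = ⊤) (ht : ∀ s ∈ S, ∃ n : ℕ, 0 < n ∧ s ^ n = 1) : Finite X := by
  classical
  choose! n hn0 hn1 using ht
  have hpos : 0 < ∏ s ∈ hS.toFinset, n s := by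
    apply Finset.prod_pos
    intro s hs
    exact hn0 s (hS.mem_toFinset.1 hs)
  refine tor_fin X S hS hgen (∏ s ∈ hS.toFinset, n s) hpos ?_
  intro s hs
  obtain ⟨k, hk⟩ := Finset.dvd_prod_of_mem n (hS.mem_toFinset.2 hs)
  rw [hk, pow_mul, hn1 s hs, one_pow]

/-- a finitely generated subgroup with generators of finite order is finite -/
private theorem tor_closure (h : LNg X) {S : Set X} (hS : S.Finite)
    (ht : ∀ s ∈ S, ∃ n : ℕ, 0 < n ∧ s ^ n = 1) : Finite (closure S) := by
  have hnil : Group.IsNilpotent (closure S) := by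
    have := h hS.toFinset
    rwa [hS.coe_toFinset] at this
  refine finite_of_torsion_gen hnil (S := ((↑) : closure S → X) ⁻¹' S)
    (hS.preimage Subtype.val_injective.injOn) (closure_closure_coe_preimage) ?_
  intro x hx
  obtain ⟨n, hn, h1⟩ := ht _ hx
  exact ⟨n, hn, Subtype.ext (by rw [coe_pow, h1, coe_one])⟩

private theorem tor_of_finite {F : Subgroup X} [Finite F] {x : X} (hx : x ∈ F) :
    ∃ n : ℕ, 0 < n ∧ x ^ n = 1 := by
  obtain ⟨n, hn, h1⟩ := isOfFinOrder_iff_pow_eq_one.1 (isOfFinOrder_of_finite (⟨x, hx⟩ : F))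
  refine ⟨n, hn, ?_⟩
  have := congrArg Subtype.val h1
  simpa using this

/-- two elements of finite order generate a finite group -/
theorem exists_tor (h : LNg X) :
    ∃ τ : Subgroup X, τ.Normal ∧ ∀ x, x ∈ τ ↔ ∃ n : ℕ, 0 < n ∧ x ^ n = 1 := by
  refine ⟨{ carrier := {x | ∃ n : ℕ, 0 < n ∧ x ^ n = 1}
            one_mem' := ⟨1, one_pos, one_pow 1⟩
            mul_mem' := ?_
            inv_mem' := ?_ }, ⟨?_⟩, fun x => Iff.rfl⟩
  · intro x y hx hy
    have hfin : Finite (closure ({x, y} : Set X)) := by
      refine tor_closure h (Set.toFinite _) ?_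
      rintro s (rfl | rfl)
      · exact hx
      · exact hy
    have hxy : x * y ∈ closure ({x, y} : Set X) :=
      mul_mem (subset_closure (by simp)) (subset_closure (by simp))
    exact tor_of_finite hxy
  · rintro x ⟨n, hn, h1⟩
    exact ⟨n, hn, by rw [inv_pow, h1, inv_one]⟩
  · rintro x ⟨n, hn, h1⟩ g
    exact ⟨n, hn, by rw [conj_pow, h1, mul_one, mul_inv_cancel]⟩

theorem tf_quot_tor (τ : Subgroup X) [τ.Normal] (hτ : ∀ x, x ∈ τ ↔ ∃ n : ℕ, 0 < n ∧ x ^ n = 1) :
    TF (X ⧸ τ) := by
  intro g n hn h1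
  obtain ⟨x, rfl⟩ := QuotientGroup.mk_surjective g
  rw [← QuotientGroup.mk_pow, QuotientGroup.eq_one_iff, hτ] at h1
  obtain ⟨m, hm, h2⟩ := h1
  rw [QuotientGroup.eq_one_iff, hτ]
  exact ⟨n * m, Nat.mul_pos hn hm, by rw [pow_mul, h2]⟩

/-- The subgroup `F` generated by the `eng x j t` (`j ≥ 0`), of which only finitely many are not `1`,
is normalised by `x` (see `Nrm.lean`) and contains `t`; its generators have finite order (`exists_tor`),
so it is finite. `(x t) ^ n = x ^ n f_n` with `f_n ∈ F`; `f_a = f_b` for some `a < b`, and then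
`(x t) ^ (b - a) = x ^ (b - a)` (compute `(x t) ^ b * ((x t) ^ a)⁻¹`). -/
theorem mul_torsion_pow (h : LNg X) {x t : X} (ht : ∃ n : ℕ, 0 < n ∧ t ^ n = 1) :
    ∃ m : ℕ, 0 < m ∧ (x * t) ^ m = x ^ m := by
  obtain ⟨τ, hτN, hτ⟩ := exists_tor h
  have htτ : t ∈ τ := (hτ t).2 ht
  obtain ⟨N, hN⟩ := h.engel x t
  have hy : ∀ j, eng x j t ∈ τ := by
    intro j
    induction j with
    | zero => exact htτ
    | succ j ih =>
      rw [eng_succ]
      have h1 : (eng x j t)⁻¹ * x⁻¹ * eng x j t * x =
          (eng x j t)⁻¹ * (x⁻¹ * eng x j t * x⁻¹⁻¹) := by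
        rw [inv_inv]
        group
      rw [h1]
      exact mul_mem (inv_mem ih) (hτN.conj_mem _ ih _)
  set S : Set X := (fun j => eng x j t) '' Set.Iio (N + 1) with hS
  have hSfin : S.Finite := (Set.finite_Iio (N + 1)).image _
  have hF : Finite (closure S) := by
    refine tor_closure h hSfin ?_
    rintro _ ⟨j, -, rfl⟩
    exact (hτ _).1 (hy j)
  have hmem : ∀ j, eng x j t ∈ closure S := by
    intro j
    by_cases hj : j < N + 1
    · exact subset_closure ⟨j, hj, rfl⟩
    · rw [eng_eq_one_of_le (by omega : N ≤ j) hN]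
      exact one_mem _
  have hconj : ∀ f ∈ closure S, x⁻¹ * f * x ∈ closure S := by
    intro f hf
    induction hf using closure_induction with
    | mem f hf =>
      obtain ⟨j, -, rfl⟩ := hf
      have h1 : x⁻¹ * eng x j t * x = eng x j t * eng x (j + 1) t := by
        rw [eng_succ]
        group
      show x⁻¹ * eng x j t * x ∈ closure S
      rw [h1]
      exact mul_mem (hmem j) (hmem (j + 1))
    | one => simp
    | mul f g _ _ hf hg =>
      have h1 : x⁻¹ * (f * g) * x = (x⁻¹ * f * x) * (x⁻¹ * g * x) := by group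
      rw [h1]
      exact mul_mem hf hg
    | inv f _ hf =>
      have h1 : x⁻¹ * f⁻¹ * x = (x⁻¹ * f * x)⁻¹ := by group
      rw [h1]
      exact inv_mem hf
  have hpow : ∀ n : ℕ, ∃ f : closure S, (x * t) ^ n = x ^ n * (f : X) := by
    intro n
    induction n with
    | zero => exact ⟨1, by simp⟩
    | succ n ih =>
      obtain ⟨f, hf⟩ := ih
      refine ⟨⟨x⁻¹ * (f : X) * x * t, mul_mem (hconj _ f.2) (hmem 0)⟩, ?_⟩
      rw [pow_succ, hf, pow_succ]
      show x ^ n * (f : X) * (x * t) = x ^ n * x * (x⁻¹ * (f : X) * x * t)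
      group
  choose f hf using hpow
  obtain ⟨a, b, hab, heq⟩ := Finite.exists_ne_map_eq_of_infinite f
  have key : ∀ a b : ℕ, a < b → f a = f b → ∃ m : ℕ, 0 < m ∧ (x * t) ^ m = x ^ m := by
    intro a b hab heq
    refine ⟨b - a, by omega, ?_⟩
    have h1 : (x * t) ^ b = (x * t) ^ (b - a) * (x * t) ^ a := by
      rw [← pow_add]
      congr 1
      omega
    have h2 : x ^ b = x ^ (b - a) * x ^ a := by
      rw [← pow_add]
      congr 1
      omega
    rw [hf b, hf a, h2, heq, mul_assoc] at h1
    exact (mul_right_cancel h1).symm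
  rcases lt_or_gt_of_ne hab with h1 | h1
  · exact key a b h1 heq
  · exact key b a h1 heq.symm

theorem LNg_of_nilpotent (h : Group.IsNilpotent X) : LNg X := by
  intro S
  infer_instance

end Pool.Agent.Helper59.EJ
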