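import Pool.Agent.Helper59.EJ.Defs

/-!
# EJ-3. Finitely generated ZA-groups are nilpotent; the normaliser condition
-/

set_option autoImplicit false

namespace Pool.Agent.Helper59.EJ

universe u

open Pool.Agent.Helper98.Engel Subgroup

/-- `cm S c` is the set of left-normed commutators of weight
`c + 1` in elements of `S` -/
def cm {G : Type u} [Group G] (S : Set G) : ℕ → Set G
  | 0 => S
  | c + 1 => {w | ∃ v ∈ cm S c, ∃ s ∈ S, w = v⁻¹ * s⁻¹ * v * s}

theorem cm_image {G : Type u} [Group G] {H : Type u} [Group H] (f : G →* H) (S : Set G) :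
    ∀ c : ℕ, ∀ w ∈ cm (f '' S) c, ∃ v ∈ cm S c, f v = w := by
  intro c
  induction c with
  | zero =>
    rintro w ⟨v, hv, rfl⟩
    exact ⟨v, hv, rfl⟩
  | succ c ih =>
    rintro w ⟨v, hv, s, ⟨s', hs', rfl⟩, rfl⟩
    obtain ⟨v', hv', rfl⟩ := ih v hv
    exact ⟨v'⁻¹ * s'⁻¹ * v' * s', ⟨v', hv', s', hs', rfl⟩, by simp⟩

theorem cm_finite {G : Type u} [Group G] {S : Set G} (hS : S.Finite) :
    ∀ c : ℕ, (cm S c).Finite := by
  intro c
  induction c with
  | zero => exact hS
  | succ c ih =>
    have h1 : cm S (c + 1) ⊆ (fun p : G × G => p.1⁻¹ * p.2⁻¹ * p.1 * p.2) '' ((cm S c) ×ˢ S) := by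
      rintro w ⟨v, hv, s, hs, rfl⟩
      exact ⟨(v, s), ⟨hv, hs⟩, rfl⟩
    exact ((ih.prod hS).image _).subset h1

/-- If all left-normed commutators of some weight in the generators are trivial then the group is
nilpotent. Induction on `c`: the elements of `cm S c` commute with all generators, so they are central;
apply the induction hypothesis to `G ⧸ center G` and the image of `S`. -/
theorem nilp_of_cm {G : Type u} [Group G] {S : Set G} (hS : closure S = ⊤) :
    ∀ c : ℕ, (∀ w ∈ cm S c, w = 1) → Group.IsNilpotent G := by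
  intro c
  induction c generalizing G with
  | zero =>
    intro h
    have h1 : closure S ≤ (⊥ : Subgroup G) := by
      rw [closure_le]
      intro s hs
      exact h s hs
    rw [hS] at h1
    have : Subsingleton G := by
      refine ⟨fun a b => ?_⟩
      have ha : a = 1 := Subgroup.mem_bot.1 (h1 (mem_top a))
      have hb : b = 1 := Subgroup.mem_bot.1 (h1 (mem_top b))
      rw [ha, hb]
    infer_instance
  | succ c ih =>
    intro h
    have hc : ∀ v ∈ cm S c, v ∈ center G := by
      intro v hv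
      have h1 : (⊤ : Subgroup G) ≤ centralizer {v} := by
        rw [← hS, closure_le]
        intro s hs
        have h2 := h _ ⟨v, hv, s, hs, rfl⟩
        show s ∈ centralizer {v}
        rw [mem_centralizer_iff]
        rintro x rfl
        have h3 : s * x * (x⁻¹ * s⁻¹ * x * s) = s * x := by rw [h2, mul_one]
        have h4 : s * x * (x⁻¹ * s⁻¹ * x * s) = x * s := by group
        rw [← h4, h3]
      rw [mem_center_iff]
      intro g
      have h5 := h1 (mem_top g)
      rw [mem_centralizer_iff] at h5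
      exact (h5 v rfl).symm
    have hq : closure ((QuotientGroup.mk' (center G)) '' S) = ⊤ := by
      rw [← MonoidHom.map_closure, hS]
      exact Subgroup.map_top_of_surjective _ (QuotientGroup.mk'_surjective _)
    have h6 : Group.IsNilpotent (G ⧸ center G) := by
      refine ih hq ?_
      intro w hw
      obtain ⟨v, hv, rfl⟩ := cm_image (QuotientGroup.mk' (center G)) S c w hw
      exact (QuotientGroup.eq_one_iff v).2 (hc v hv)
    exact Group.of_quotient_center_nilpotent h6

/-- A finitely generated ZA-group is nilpotent. Let `S` be a finite generating set. Suppose `G` is not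
nilpotent. The set of the normal `N` with `G ⧸ N` not nilpotent is closed under unions `U` of nonempty
chains: if `G ⧸ U` were nilpotent, all (finitely many) elements of some `cm S c` would lie in `U`, so in a
member `N` of the chain, and `G ⧸ N` would be nilpotent by `nilp_of_cm`. Let `N` be a maximal one (Zorn);
`N ≠ ⊤`; by `ZA` the preimage `N'` of the centre of `G ⧸ N` is larger than `N`, so `G ⧸ N'` is nilpotent,
so `G ⧸ N` is nilpotent. -/
theorem ZA.nilpotent {G : Type u} [Group G] (hfg : Group.FG G) (h : ZA G) :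
    Group.IsNilpotent G := by
  by_contra hnil
  obtain ⟨S, hS, hSf⟩ := Group.fg_iff.1 hfg
  set P : Set (Subgroup G) := {N | N.Normal ∧ ∀ c, ∃ w ∈ cm S c, w ∉ N} with hP
  have hbot : (⊥ : Subgroup G) ∈ P := by
    refine ⟨inferInstance, ?_⟩
    intro c
    by_contra hc
    push Not at hc
    exact hnil (nilp_of_cm hS c fun w hw => Subgroup.mem_bot.1 (hc w hw))
  obtain ⟨N, -, hN⟩ := zorn_le_nonempty₀ P (by
    intro C hC hch N₀ hN₀
    have hne : C.Nonempty := ⟨N₀, hN₀⟩
    have hdir : DirectedOn (· ≤ ·) C := hch.directedOn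
    refine ⟨sSup C, ⟨?_, ?_⟩, fun N hN => le_sSup hN⟩
    · refine ⟨fun n hn g => ?_⟩
      rw [mem_sSup_of_directedOn hne hdir] at hn ⊢
      obtain ⟨N, hN, hn⟩ := hn
      exact ⟨N, hN, (hC hN).1.conj_mem n hn g⟩
    · intro c
      by_contra hc
      push Not at hc
      have hfin := cm_finite hSf c
      have key : ∀ F : Set G, F.Finite → F ⊆ (sSup C : Subgroup G) → ∃ N ∈ C, F ⊆ (N : Set G) := by
        intro F hF
        induction F, hF using Set.Finite.induction_on with
        | empty => exact fun _ => ⟨N₀, hN₀, Set.empty_subset _⟩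
        | @insert a F _ _ ihF =>
          intro hsub
          obtain ⟨N1, hN1, h1⟩ := ihF fun x hx => hsub (Set.mem_insert_of_mem _ hx)
          have ha := hsub (Set.mem_insert a F)
          have ha' := (mem_sSup_of_directedOn hne hdir).1 ha
          obtain ⟨N2, hN2, h2⟩ := ha'
          obtain ⟨N3, hN3, h13, h23⟩ := hdir N1 hN1 N2 hN2
          refine ⟨N3, hN3, ?_⟩
          intro x hx
          rcases hx with rfl | hx
          · exact h23 h2
          · exact h13 (h1 hx)
      obtain ⟨N, hNC, hsub⟩ := key _ hfin hc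
      obtain ⟨w, hw, hwN⟩ := (hC hNC).2 c
      exact hwN (hsub hw)) ⊥ hbot
  have hNn : N.Normal := hN.prop.1
  have hNt : N ≠ ⊤ := by
    rintro rfl
    obtain ⟨w, _, hw⟩ := hN.prop.2 0
    exact hw (mem_top w)
  obtain ⟨z, hz, hzc⟩ := h N hNn hNt
  set N' : Subgroup G := (center (G ⧸ N)).comap (QuotientGroup.mk' N) with hN'
  have hmem : ∀ x : G, x ∈ N' ↔ ∀ g : G, x⁻¹ * g⁻¹ * x * g ∈ N := by
    intro x
    rw [hN', mem_comap, mem_center_iff]
    constructor
    · intro hx g
      have h1 := hx (QuotientGroup.mk' N g)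
      rw [← QuotientGroup.eq_one_iff]
      have h2 : ((x⁻¹ * g⁻¹ * x * g : G) : G ⧸ N) =
          (QuotientGroup.mk' N x)⁻¹ * (QuotientGroup.mk' N g)⁻¹ *
            ((QuotientGroup.mk' N x) * (QuotientGroup.mk' N g)) := by
        simp [mul_assoc]
      rw [h2, ← h1]
      group
    · intro hx g
      obtain ⟨g, rfl⟩ := QuotientGroup.mk'_surjective N g
      have h1 := hx g
      rw [← QuotientGroup.eq_one_iff] at h1
      have h2 : ((x⁻¹ * g⁻¹ * x * g : G) : G ⧸ N) =
          (QuotientGroup.mk' N x)⁻¹ * (QuotientGroup.mk' N g)⁻¹ *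
            ((QuotientGroup.mk' N x) * (QuotientGroup.mk' N g)) := by
        simp [mul_assoc]
      rw [h2] at h1
      calc QuotientGroup.mk' N g * QuotientGroup.mk' N x
          = QuotientGroup.mk' N g * QuotientGroup.mk' N x * 1 := by rw [mul_one]
        _ = QuotientGroup.mk' N g * QuotientGroup.mk' N x *
            ((QuotientGroup.mk' N x)⁻¹ * (QuotientGroup.mk' N g)⁻¹ *
            ((QuotientGroup.mk' N x) * (QuotientGroup.mk' N g))) := by rw [h1]
        _ = _ := by group
  have hle : N ≤ N' := by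
    intro x hx
    rw [hmem]
    intro g
    have h1 : x⁻¹ * g⁻¹ * x * g = x⁻¹ * (g⁻¹ * x * g⁻¹⁻¹) := by group
    rw [h1]
    exact N.mul_mem (N.inv_mem hx) (hNn.conj_mem x hx g⁻¹)
  have hN'n : N'.Normal := by
    rw [hN']
    infer_instance
  have hN'P : N' ∉ P := by
    intro hP'
    have h1 := hN.le_of_ge hP' hle
    exact hz (h1 ((hmem z).2 hzc))
  apply hN'P
  refine ⟨hN'n, fun c => ?_⟩
  by_contra hc
  push Not at hc
  obtain ⟨w, ⟨v, hv, s, hs, rfl⟩, hw⟩ := hN.prop.2 (c + 1)
  exact hw ((hmem v).1 (hc v hv) s)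

/-- Normaliser condition. Let `W` be the normal core of `N` and `z ∉ W` central modulo `W`. If `z ∈ N`
then all conjugates of `z` lie in `z W ⊆ N`, so `z ∈ W`. So `z ∉ N`; and `z` normalises `N ⊇ W`. -/
theorem ZA.nc {G : Type u} [Group G] (h : ZA G) {N : Subgroup G} (hN : N ≠ ⊤) :
    ∃ g : G, g ∉ N ∧ g ∈ normalizer (N : Set G) := by
  have hW : N.normalCore ≤ N := Subgroup.normalCore_le N
  have hWt : N.normalCore ≠ ⊤ := by
    intro h1
    exact hN (top_le_iff.1 (h1 ▸ hW))
  have hWn : N.normalCore.Normal := inferInstance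
  obtain ⟨z, hz, hzc⟩ := h N.normalCore inferInstance hWt
  refine ⟨z, ?_, ?_⟩
  · intro hzN
    apply hz
    show ∀ b : G, b * z * b⁻¹ ∈ N
    intro b
    have h1 := hW (hzc b⁻¹)
    have h2 : b * z * b⁻¹ = z * (z⁻¹ * b⁻¹⁻¹ * z * b⁻¹) := by group
    rw [h2]
    exact N.mul_mem hzN h1
  · rw [mem_normalizer_iff]
    intro x
    have h1 : x⁻¹ * (z * x * z⁻¹) ∈ N.normalCore := by
      have h2 := hWn.conj_mem _ (hzc x) z
      have h3 : z * (z⁻¹ * x⁻¹ * z * x) * z⁻¹ = x⁻¹ * (z * x * z⁻¹) := by group
      rw [← h3]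
      exact h2
    constructor
    · intro hx
      have h4 := N.mul_mem hx (hW h1)
      have h5 : x * (x⁻¹ * (z * x * z⁻¹)) = z * x * z⁻¹ := by group
      rw [h5] at h4
      exact h4
    · intro hx
      have h4 := N.mul_mem hx (N.inv_mem (hW h1))
      have h5 : z * x * z⁻¹ * (x⁻¹ * (z * x * z⁻¹))⁻¹ = x := by group
      rw [h5] at h4
      exact h4

end Pool.Agent.Helper59.EJ
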