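import Pool.Agent.Helper59.EJ.RFm
import Pool.Agent.Helper59.EJ.ZAN
import Pool.Agent.Helper59.EJ.AFB
import Pool.Agent.Helper59.EJ.Tor
import Pool.Agent.Helper59.EK.Comp
import Pool.Agent.Helper59.EI.DvApi

/-!
# EJ-10. Countable locally nilpotent groups of finite abelian subgroup rank are ZA-groups
-/

set_option autoImplicit false

namespace Pool.Agent.Helper59.EJ

universe u

open Pool.Agent.Helper98.Engel Subgroup

private theorem zam_ucs {H : Type u} [Group H] (hH : Group.IsNilpotent H) {F W : Subgroup H}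
    (hF : F.Normal) (hne : ¬ F ≤ W) :
    ∃ z ∈ F, z ∉ W ∧ ∀ g : H, z⁻¹ * g⁻¹ * z * g ∈ W := by
  classical
  have hex : ∃ n : ℕ, ∃ z ∈ F, z ∈ Subgroup.upperCentralSeries H n ∧ z ∉ W := by
    obtain ⟨n, hn⟩ := hH.nilpotent'
    obtain ⟨z, hz, hzW⟩ := Set.not_subset.1 hne
    exact ⟨n, z, hz, by rw [hn]; exact Subgroup.mem_top z, hzW⟩
  obtain ⟨z, hz, hz1, hz2⟩ := Nat.find_spec hex
  have hmin := fun m => Nat.find_min hex (m := m)
  generalize Nat.find hex = n at hz1 hmin
  refine ⟨z, hz, hz2, ?_⟩
  intro g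
  cases n with
  | zero =>
    rw [Subgroup.upperCentralSeries_zero, Subgroup.mem_bot] at hz1
    rw [hz1] at hz2
    exact absurd W.one_mem hz2
  | succ m =>
    have h1 := (Subgroup.mem_upperCentralSeries_succ_iff.1 (inv_mem hz1)) g⁻¹
    rw [commutatorElement_def, inv_inv, inv_inv] at h1
    by_contra hcon
    refine hmin m (Nat.lt_succ_self m) ⟨_, ?_, h1, hcon⟩
    have h2 : z⁻¹ * g⁻¹ * z * g = z⁻¹ * (g⁻¹ * z * g⁻¹⁻¹) := by group
    rw [h2]
    exact F.mul_mem (F.inv_mem hz) (hF.conj_mem z hz g⁻¹)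

/-- a finite normal subgroup not contained in `W` gives a central element modulo `W`. Otherwise for
every `f ∈ F \ W` choose `g f` with `[f, g f] ∉ W`; the subgroup `H` generated by `F` and the `g f` is
nilpotent, so the image of `F` in `H / (H ∩ W)`, a nontrivial normal subgroup, meets the centre. -/
theorem central_of_finite {X : Type u} [Group X] (h : LNg X) {W F : Subgroup X} (hW : W.Normal)
    (hF : F.Normal) (hfin : (F : Set X).Finite) (hne : ¬ F ≤ W) :
    ∃ z : X, z ∉ W ∧ ∀ g : X, z⁻¹ * g⁻¹ * z * g ∈ W := by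
  classical
  by_contra hcon
  push Not at hcon
  choose! gf hgf using hcon
  set S : Finset X := hfin.toFinset ∪ hfin.toFinset.image gf with hS
  have hFS : ∀ x ∈ F, x ∈ closure (S : Set X) := fun x hx =>
    subset_closure (by simp [hS, hx])
  have hgS : ∀ x ∈ F, gf x ∈ closure (S : Set X) := fun x hx =>
    subset_closure (by
      simp only [hS, Finset.coe_union, Finset.coe_image, Set.Finite.coe_toFinset]
      exact Or.inr ⟨x, hx, rfl⟩)
  obtain ⟨z, hz, hz1, hz2⟩ := zam_ucs (h S) (F := F.subgroupOf (closure (S : Set X)))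
    (W := W.subgroupOf (closure (S : Set X))) inferInstance (by
      obtain ⟨z, hz, hzW⟩ := Set.not_subset.1 hne
      intro hle
      exact hzW (hle (show (⟨z, hFS z hz⟩ : closure (S : Set X)) ∈ F.subgroupOf _ from hz)))
  have h1 := hz2 ⟨gf z, hgS z hz⟩
  exact hgf z hz1 h1

private theorem zam_LF {X : Type u} [Group X] (h : LNg X) {Y : Subgroup X}
    (hY : ∀ x ∈ Y, ∃ n : ℕ, 0 < n ∧ x ^ n = 1) : EI.LF Y := by
  intro s hs hsY
  have hn : Group.IsNilpotent (closure s : Subgroup X) := by
    have := h hs.toFinset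
    rwa [hs.coe_toFinset] at this
  have hfin : Finite (closure s : Subgroup X) := by
    refine finite_of_torsion_gen hn (S := (Subtype.val : ↥(closure s : Subgroup X) → X) ⁻¹' s) ?_ ?_ ?_
    · exact hs.preimage Subtype.val_injective.injOn
    · exact Subgroup.closure_closure_coe_preimage
    · intro x hx
      obtain ⟨n, hn, hxn⟩ := hY x (hsY hx)
      exact ⟨n, hn, Subtype.ext hxn⟩
  exact Set.toFinite _

/-- Let `W` be normal, `W ≠ ⊤`, `τ` the torsion subgroup. If `τ ≤ W`: `X ⧸ W` is a quotient of the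
nilpotent group `X ⧸ τ` (`quot_tor_nilp`). Otherwise some `p`-element is not in `W`; `Y`, the normal
subgroup of the `p`-elements, is `LP p`, so it has a divisible subgroup `P = dv p Y` of finite index
(EI/DvApi: `LP.dv_eq`, `dv_nr`), normal in `X`. If `P` is not contained in `W`, some
`{x ∈ P : x ^ p ^ k = 1}` is not; it is a finite normal subgroup; `central_of_finite`. If `P ≤ W`, then
the image of `Y` in `X ⧸ W` is finite, normal and nontrivial; `central_of_finite` in `X ⧸ W` (with
`W := ⊥`). -/
theorem ZA_mixed {X : Type u} [Group X] [Countable X] (h : LNg X) (hr : FR X) : ZA X := by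
  intro W hW hWt
  obtain ⟨τ, hτn, hτ⟩ := exists_tor h
  by_cases hle : τ ≤ W
  · -- the quotient by the torsion subgroup
    obtain ⟨hnil, -⟩ := quot_tor_nilp h hr τ hτ
    have hcm : (W.map (QuotientGroup.mk' τ)).comap (QuotientGroup.mk' τ) = W := by
      apply Subgroup.comap_map_eq_self
      rw [QuotientGroup.ker_mk']
      exact hle
    obtain ⟨z, -, hz1, hz2⟩ := zam_ucs hnil (F := ⊤) (W := W.map (QuotientGroup.mk' τ))
      inferInstance (by
        intro hcon
        apply hWt
        rw [← hcm, top_le_iff.1 hcon, Subgroup.comap_top])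
    obtain ⟨x, rfl⟩ := QuotientGroup.mk'_surjective τ z
    refine ⟨x, fun hx => hz1 ⟨x, hx, rfl⟩, ?_⟩
    intro g
    have h1 := hz2 (QuotientGroup.mk' τ g)
    rw [← map_inv, ← map_inv, ← map_mul, ← map_mul, ← map_mul] at h1
    rw [← hcm]
    exact h1
  · obtain ⟨x, hx, hxW⟩ := Set.not_subset.1 hle
    obtain ⟨n, hn, hxn⟩ := (hτ x).1 hx
    -- a `p`-element outside `W`
    have h1 : ∃ p : ℕ, p.Prime ∧ ∃ y : X, EI.PEl p y ∧ y ∉ W := by
      by_contra hcon
      push Not at hcon
      exact hxW (EK.mem_of_comp hn ⟨1, by rw [pow_one]; exact hxn⟩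
        (fun p hp _ k hk => hcon p hp _ hk))
    obtain ⟨p, hp, y, hyp, hyW⟩ := h1
    haveI : Fact p.Prime := ⟨hp⟩
    obtain ⟨Y, -, hY⟩ := EK.exists_comp (X := (⊤ : Subgroup X)) (fun S _ => h S) hp
    have hY' : ∀ x, x ∈ Y ↔ EI.PEl p x := fun x => by
      rw [hY]
      simp
    have hYn : Y.Normal := by
      constructor
      intro a ha g
      rw [hY'] at ha ⊢
      have := ha.conj g⁻¹
      rwa [inv_inv] at this
    have hYLP : EI.LP p Y := by
      refine ⟨zam_LF h ?_, fun x hx => (hY' x).1 hx⟩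
      intro a ha
      obtain ⟨k, hk⟩ := (hY' a).1 ha
      exact ⟨p ^ k, pow_pos hp.pos k, hk⟩
    have hthin : EI.Thin p X := hr.thin hp
    obtain ⟨hPD, hPi⟩ := hYLP.dv_eq hthin
    set P := EI.dv p Y with hPdef
    have hPn : P.Normal := by
      rw [← Subgroup.normalizer_eq_top_iff]
      rw [eq_top_iff]
      intro g _
      apply EI.dv_nr
      have : Subgroup.normalizer (Y : Set X) = ⊤ := Subgroup.normalizer_eq_top_iff.2 hYn
      show g ∈ Subgroup.normalizer (Y : Set X)
      rw [this]
      exact Subgroup.mem_top g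
    by_cases hPW : P ≤ W
    · -- the image of `Y` is finite
      have hfin : ((Y.map (QuotientGroup.mk' W) : Subgroup (X ⧸ W)) : Set (X ⧸ W)).Finite := by
        have h2 : W.relIndex Y ≠ 0 := by
          intro h0
          apply hPi
          exact Subgroup.relIndex_eq_zero_of_le_left hPW h0
        have h3 : (⊥ : Subgroup (X ⧸ W)).relIndex (Y.map (QuotientGroup.mk' W)) ≠ 0 := by
          have h4 := Subgroup.relIndex_comap (⊥ : Subgroup (X ⧸ W)) (QuotientGroup.mk' W) Y
          rw [← h4]
          have h5 : (⊥ : Subgroup (X ⧸ W)).comap (QuotientGroup.mk' W) = W := by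
            rw [MonoidHom.comap_bot, QuotientGroup.ker_mk']
          rw [h5]
          exact h2
        rw [Subgroup.relIndex_bot_left] at h3
        have : Finite (Y.map (QuotientGroup.mk' W)) := (Nat.card_ne_zero.1 h3).2
        exact Set.toFinite _
      obtain ⟨z, hz1, hz2⟩ := central_of_finite
        (h.of_surjective (QuotientGroup.mk' W) (QuotientGroup.mk'_surjective W))
        (W := ⊥) (F := Y.map (QuotientGroup.mk' W)) inferInstance
        (hYn.map _ (QuotientGroup.mk'_surjective W)) hfin (by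
          intro hcon
          have h3 : QuotientGroup.mk' W y ∈ (⊥ : Subgroup (X ⧸ W)) :=
            hcon ⟨y, (hY' y).2 hyp, rfl⟩
          rw [Subgroup.mem_bot, ← MonoidHom.mem_ker, QuotientGroup.ker_mk'] at h3
          exact hyW h3)
      obtain ⟨x, rfl⟩ := QuotientGroup.mk'_surjective W z
      refine ⟨x, fun hx => hz1 ?_, ?_⟩
      · rw [Subgroup.mem_bot, ← MonoidHom.mem_ker, QuotientGroup.ker_mk']
        exact hx
      · intro g
        have h3 := hz2 (QuotientGroup.mk' W g)
        rw [← map_inv, ← map_inv, ← map_mul, ← map_mul, ← map_mul, Subgroup.mem_bot,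
          ← MonoidHom.mem_ker, QuotientGroup.ker_mk'] at h3
        exact h3
    · obtain ⟨a, ha, haW⟩ := Set.not_subset.1 hPW
      obtain ⟨k, hk⟩ := hPD.pel a ha
      -- the elements of `P` of order dividing `p ^ k`
      have hab : EI.AbF p P := EI.AbF.of_thin hthin hPD.comm hPD.pel
      have hmul : ∀ x ∈ P, ∀ y ∈ P, ∀ j : ℕ, (x * y) ^ j = x ^ j * y ^ j := fun x hx y hy j =>
        (show Commute x y from hPD.comm x hx y hy).mul_pow j
      let F : ℕ → Subgroup X := fun j =>
        { carrier := {x | x ∈ P ∧ x ^ p ^ j = 1}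
          mul_mem' := by
            rintro x y ⟨hx, hx'⟩ ⟨hy, hy'⟩
            exact ⟨P.mul_mem hx hy, by rw [hmul x hx y hy, hx', hy', one_mul]⟩
          one_mem' := ⟨P.one_mem, one_pow _⟩
          inv_mem' := by
            rintro x ⟨hx, hx'⟩
            exact ⟨P.inv_mem hx, by rw [inv_pow, hx', inv_one]⟩ }
      have hFm : ∀ j x, x ∈ F j ↔ x ∈ P ∧ x ^ p ^ j = 1 := fun j x => Iff.rfl
      have hFfin : ∀ j, (F j : Set X).Finite := by
        intro j
        induction j with
        | zero =>
          apply (Set.finite_singleton (1 : X)).subset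
          rintro x ⟨-, hx⟩
          rw [pow_zero, pow_one] at hx
          exact hx
        | succ j ih =>
          -- the fibres of `x ↦ x ^ p` are finite
          have h2 : ∀ b : X, {x : X | x ∈ P ∧ x ^ p = b}.Finite := by
            intro b
            rcases Set.eq_empty_or_nonempty {x : X | x ∈ P ∧ x ^ p = b} with he | ⟨c, hc, hcb⟩
            · rw [he]
              exact Set.finite_empty
            · apply (hab.fin.image (fun d => c * d)).subset
              rintro x ⟨hx, hxb⟩
              refine ⟨c⁻¹ * x, ⟨P.mul_mem (P.inv_mem hc) hx, ?_⟩, by simp⟩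
              rw [hmul _ (P.inv_mem hc) x hx, inv_pow, hcb, hxb, inv_mul_cancel]
          apply (ih.biUnion (t := fun b => {x : X | x ∈ P ∧ x ^ p = b}) fun b _ => h2 b).subset
          rintro x ⟨hx, hx'⟩
          rw [Set.mem_iUnion₂]
          refine ⟨x ^ p, ⟨P.pow_mem hx p, ?_⟩, hx, rfl⟩
          rw [← pow_mul, ← pow_succ']
          exact hx'
      have hFn : (F k).Normal := by
        constructor
        rintro x ⟨hx, hx'⟩ g
        refine ⟨hPn.conj_mem x hx g, ?_⟩
        rw [conj_pow, hx', mul_one, mul_inv_cancel]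
      exact central_of_finite h hW hFn (hFfin k) (fun hcon => haW (hcon ⟨ha, hk⟩))

end Pool.Agent.Helper59.EJ
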