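import Pool.Agent.Helper59.EJ.MainM
import Pool.Agent.Helper59.EJ.JoinM
import Pool.Agent.Helper59.EJ.ZAm
import Pool.Agent.Helper59.EJ.NrmT
import Pool.Agent.Helper59.EJ.Acc

/-!
# EJ-17. Left Engel elements in groups of finite abelian subgroup rank
-/

set_option autoImplicit false

namespace Pool.Agent.Helper59.EJ

universe u

open Pool.Agent.Helper98.Engel Subgroup

variable {G : Type u} [Group G]

theorem LE_conj : ∀ t ∈ LE G, ∀ g : G, g * t * g⁻¹ ∈ LE G := by
  intro t ht g
  have h1 : IsLeftEngel t := ht
  have := h1.conj g⁻¹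
  rw [inv_inv] at this
  exact this

theorem FinalM_nilp_of_fg {A : Subgroup G} (hA : LN A) (hf : A.FG) : Group.IsNilpotent A := by
  obtain ⟨S, hS⟩ := hf
  have h1 := hA S (by rw [← hS]; exact subset_closure)
  rw [hS] at h1
  exact h1

/-- nrm: `ZA_mixed` for `M` and `nrm_of_ZA`; acc: `RF_mixed_sub`, `acc_of_RF`; join: `join_mixed`. -/
theorem cx_countable [Countable G] (hr : FR G) : Cx (LE G) where
  lft := fun _ ht => ht
  conj := LE_conj
  nrm := by
    intro M hM D hDM hD hne
    have hz : ZA M := ZA_mixed hM.1.lng (hr.sub M)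
    obtain ⟨x, h1, h2, h3, h4⟩ := nrm_of_ZA LE_conj hM.2 hz hDM hD hne
    exact ⟨x, h1, h2, h3, h4⟩
  acc := fun F hF hne => acc_of_RF (fun M hM => RF_mixed_sub hr hM.1) F hF hne
  join := by
    intro A B D hA hB hAf hBf hDf hDA hDB hRA hRB
    exact LN.of_isNilpotent (join_mixed hr.af (FinalM_nilp_of_fg hA.1 hAf)
      (FinalM_nilp_of_fg hB.1 hBf) hAf hBf hDf hA.2 hB.2 hDA hDB hRA hRB (RF_mixed_sub hr hA.1))

/-- a finite subset of `closure (LE G)` lies in the subgroup `H` generated by a finite subset of
`LE G`; `H` is countable; apply `Cx.main` to `H`. -/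
theorem LE_LN (hr : FR G) : LN (closure (LE G)) := by
  classical
  have key2 : ∀ x ∈ Subgroup.closure (LE G), ∃ s' : Set G, s'.Finite ∧ s' ⊆ LE G ∧
      x ∈ Subgroup.closure s' := by
    intro x hx
    induction hx using Subgroup.closure_induction with
    | mem x hx => exact ⟨{x}, Set.finite_singleton x, by simpa using hx,
        Subgroup.subset_closure rfl⟩
    | one => exact ⟨∅, Set.finite_empty, Set.empty_subset _, Subgroup.one_mem _⟩
    | mul x y _ _ hx hy =>
      obtain ⟨s, h1, h2, h3⟩ := hx
      obtain ⟨s', h1', h2', h3'⟩ := hy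
      exact ⟨s ∪ s', h1.union h1', Set.union_subset h2 h2',
        Subgroup.mul_mem _ (Subgroup.closure_mono Set.subset_union_left h3)
          (Subgroup.closure_mono Set.subset_union_right h3')⟩
    | inv x _ hx =>
      obtain ⟨s, h1, h2, h3⟩ := hx
      exact ⟨s, h1, h2, Subgroup.inv_mem _ h3⟩
  intro S hS
  choose! F hF using key2
  set s' : Set G := ⋃ x ∈ S, F x with hs'
  have h1 : s'.Finite := S.finite_toSet.biUnion (fun x hx => (hF x (hS hx)).1)
  have h2 : s' ⊆ LE G := Set.iUnion₂_subset (fun x hx => (hF x (hS hx)).2.1)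
  have hSs : (S : Set G) ⊆ (closure s' : Subgroup G) := by
    intro x hx
    exact Subgroup.closure_mono (Set.subset_biUnion_of_mem hx) (hF x (hS hx)).2.2
  set H : Subgroup G := closure s' with hH
  have hcount : Countable H := by
    have h3 : Countable s' := h1.countable
    rw [hH, FreeGroup.closure_eq_range]
    exact (FreeGroup.lift ((↑) : s' → G)).rangeRestrict_surjective.countable
  have hgen : closure (LE H) = ⊤ := by
    apply Subgroup.map_injective H.subtype_injective
    rw [MonoidHom.map_closure, ← MonoidHom.range_eq_map, Subgroup.range_subtype]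
    apply le_antisymm
    · rw [closure_le]
      rintro _ ⟨x, _, rfl⟩
      exact x.2
    · conv_lhs => rw [hH]
      rw [closure_le]
      intro x hx
      refine Subgroup.subset_closure ⟨⟨x, Subgroup.subset_closure hx⟩, ?_, rfl⟩
      intro y
      obtain ⟨n, hn⟩ := h2 hx (y : G)
      refine ⟨n, H.subtype_injective ?_⟩
      rw [map_eng, map_one]
      exact hn
  have hmain := (cx_countable (G := H) (hr.sub H)).main
  rw [hgen] at hmain
  -- transfer to `G`
  let S' : Finset H := S.preimage Subtype.val Subtype.val_injective.injOn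
  have h3 := hmain S' (fun x _ => Subgroup.mem_top x)
  have h4 : closure (S : Set G) = (closure (S' : Set H)).map H.subtype := by
    rw [MonoidHom.map_closure]
    congr 1
    ext x
    constructor
    · intro hx
      exact ⟨⟨x, hSs hx⟩, by simpa [S'] using hx, rfl⟩
    · rintro ⟨y, hy, rfl⟩
      simpa [S'] using hy
  rw [h4]
  exact (Group.isNilpotent_congr
    ((closure (S' : Set H)).equivMapOfInjective H.subtype H.subtype_injective)).1 h3

/-- `N = closure (LE G)`; `engel_of_locNil` of EI/Rank.lean. -/
theorem full_final (hr : FR G) :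
    ∃ N : Subgroup G, (∀ x : G, x ∈ N ↔ IsLeftEngel x) ∧ N.Normal ∧ LocallyNilpotent N ∧
      ∀ K : Subgroup G, K.Normal → LocallyNilpotent K → K ≤ N := by
  have hLN := LE_LN hr
  have hnor : (closure (LE G)).Normal := by
    constructor
    intro x hx g
    have h1 : closure (LE G) ≤ (closure (LE G)).comap (MulAut.conj g).toMonoidHom := by
      rw [closure_le]
      intro t ht
      exact subset_closure (LE_conj t ht g)
    exact h1 hx
  have hloc : LocallyNilpotent (closure (LE G)) := by
    rintro H hH ⟨S, hS⟩
    have h1 := hLN S (by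
      intro x hx
      apply hH
      rw [← hS]
      exact subset_closure hx)
    rw [hS] at h1
    exact h1
  refine ⟨closure (LE G), ?_, hnor, hloc, ?_⟩
  · intro x
    exact ⟨fun hx => EI.engel_of_locNil hnor hloc hx, fun hx => subset_closure hx⟩
  · intro K hK hKl x hx
    exact subset_closure (EI.engel_of_locNil hK hKl hx)

end Pool.Agent.Helper59.EJ
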