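import Pool.Agent.Helper59.EJ.Tor

/-!
# EJ-6. Roots of a subgroup in a locally nilpotent group
-/

set_option autoImplicit false

namespace Pool.Agent.Helper59.EJ

universe u

open Pool.Agent.Helper98.Engel Subgroup

open scoped commutatorElement

private theorem roots_left {X : Type u} [Group X] {u y : X}
    (h1 : ⁅u, y⁆ * u = u * ⁅u, y⁆) (n : ℕ) : ⁅u ^ n, y⁆ = ⁅u, y⁆ ^ n := by
  induction n with
  | zero => simp
  | succ n ih =>
    have h2 : u * ⁅u, y⁆ ^ n = ⁅u, y⁆ ^ n * u := by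
      have h3 : Commute ⁅u, y⁆ u := h1
      exact (h3.pow_left n).eq.symm
    calc ⁅u ^ (n + 1), y⁆ = u * ⁅u ^ n, y⁆ * (y * u⁻¹ * y⁻¹) := by
          rw [commutatorElement_def, commutatorElement_def, pow_succ']
          group
      _ = ⁅u, y⁆ ^ n * (u * (y * u⁻¹ * y⁻¹)) := by rw [ih, h2]; group
      _ = ⁅u, y⁆ ^ (n + 1) := by
          rw [pow_succ, commutatorElement_def]
          group

private theorem roots_comm {X : Type u} [Group X] {u y : X}
    (h1 : ⁅u, y⁆ ∈ center X) (n m : ℕ) : ⁅u ^ n, y ^ m⁆ = ⁅u, y⁆ ^ (n * m) := by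
  have h2 : ⁅u ^ n, y⁆ = ⁅u, y⁆ ^ n := roots_left (mem_center_iff.1 h1 u).symm n
  have h3 : ⁅y, u ^ n⁆ = (⁅u, y⁆ ^ n)⁻¹ := by
    rw [← h2, commutatorElement_inv]
  have h4 : ⁅y, u ^ n⁆ ∈ center X := by
    rw [h3]
    exact inv_mem (pow_mem h1 n)
  have h5 : ⁅y ^ m, u ^ n⁆ = ⁅y, u ^ n⁆ ^ m := roots_left (mem_center_iff.1 h4 y).symm m
  rw [← commutatorElement_inv, h5, h3, inv_pow, inv_inv, pow_mul]

private theorem roots_cen {X : Type u} [Group X] {d e v w : X} (hv : v ∈ center X)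
    (hw : w ∈ center X) : ⁅d * v, e * w⁆ = ⁅d, e⁆ := by
  have h1 := mem_center_iff.1 hv
  have h2 := mem_center_iff.1 hw
  have h3 : v * (e * w) = (e * w) * v := (h1 _).symm
  have h4 : w * d⁻¹ = d⁻¹ * w := (h2 _).symm
  rw [commutatorElement_def, commutatorElement_def]
  calc d * v * (e * w) * (d * v)⁻¹ * (e * w)⁻¹
      = d * (v * (e * w)) * v⁻¹ * d⁻¹ * w⁻¹ * e⁻¹ := by group
    _ = d * ((e * w) * v) * v⁻¹ * d⁻¹ * w⁻¹ * e⁻¹ := by rw [h3]
    _ = d * e * (w * d⁻¹) * w⁻¹ * e⁻¹ := by group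
    _ = d * e * (d⁻¹ * w) * w⁻¹ * e⁻¹ := by rw [h4]
    _ = d * e * d⁻¹ * e⁻¹ := by group

private theorem roots_aux (c : ℕ) : ∀ (X : Type u) [Group X],
    (⊤ : Subgroup X).lowerCentralSeries c = ⊥ → ∀ (D : Subgroup X) (S : Set X),
    closure S = ⊤ → (∀ s ∈ S, ∃ n : ℕ, 0 < n ∧ s ^ n ∈ D) → ∀ x : X, ∃ n : ℕ, 0 < n ∧ x ^ n ∈ D := by
  induction c with
  | zero =>
    intro X _ hc D S hS h x
    rw [Subgroup.lowerCentralSeries_zero] at hc
    have h1 : x ∈ (⊤ : Subgroup X) := mem_top x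
    rw [hc, mem_bot] at h1
    exact ⟨1, one_pos, by rw [h1, one_pow]; exact one_mem D⟩
  | succ c ih =>
    intro X _ hc D S hS h x
    set N := (⊤ : Subgroup X).lowerCentralSeries c with hN
    have hcen : N ≤ center X := by
      intro v hv
      rw [mem_center_iff]
      intro g
      have h1 : ⁅v, g⁆ ∈ (⊤ : Subgroup X).lowerCentralSeries (c + 1) :=
        commutator_mem_commutator hv (mem_top g)
      rw [hc, mem_bot, commutatorElement_eq_one_iff_mul_comm] at h1
      exact h1.symm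
    -- the quotient by N
    have hq : ∀ x : X, ∃ n : ℕ, 0 < n ∧ ∃ d ∈ D, ∃ v ∈ N, x ^ n = d * v := by
      intro x
      have hsurj := QuotientGroup.mk'_surjective N
      have h1 : (⊤ : Subgroup (X ⧸ N)).lowerCentralSeries c = ⊥ := by
        have h2 := map_lowerCentralSeries (⊤ : Subgroup X) (QuotientGroup.mk' N) c
        rw [map_top_of_surjective _ hsurj] at h2
        rw [← h2, ← hN]
        rw [Subgroup.map_eq_bot_iff, QuotientGroup.ker_mk']
      obtain ⟨n, hn, h2⟩ := ih (X ⧸ N) h1 (D.map (QuotientGroup.mk' N))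
        (QuotientGroup.mk' N '' S) (by
          rw [← MonoidHom.map_closure, hS, map_top_of_surjective _ hsurj]) (by
          rintro _ ⟨s, hs, rfl⟩
          obtain ⟨n, hn, h3⟩ := h s hs
          exact ⟨n, hn, ⟨s ^ n, h3, map_pow _ _ _⟩⟩) (QuotientGroup.mk' N x)
      obtain ⟨d, hd, h3⟩ := h2
      refine ⟨n, hn, d, hd, d⁻¹ * x ^ n, ?_, by group⟩
      rw [← QuotientGroup.eq_one_iff, ← QuotientGroup.mk'_apply, map_mul, map_inv, map_pow, h3]
      group
    -- elements of N have powers in D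
    have hI : ∀ v ∈ N, ∃ n : ℕ, 0 < n ∧ v ^ n ∈ D := by
      rcases Nat.eq_zero_or_pos c with hc0 | hc0
      · -- X is abelian
        have hNtop : N = ⊤ := by
          rw [hN, hc0]
          rfl
        have hall : ∀ x : X, x ∈ center X := fun x => hcen (by rw [hNtop]; exact mem_top x)
        intro v hvN
        clear hvN
        have hv : v ∈ closure S := by rw [hS]; exact mem_top v
        induction hv using closure_induction with
        | mem v hv => exact h v hv
        | one => exact ⟨1, one_pos, by rw [one_pow]; exact one_mem D⟩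
        | mul v w _ _ hv hw =>
          obtain ⟨n, hn, h1⟩ := hv
          obtain ⟨m, hm, h2⟩ := hw
          refine ⟨n * m, Nat.mul_pos hn hm, ?_⟩
          have h3 : Commute v w := (mem_center_iff.1 (hall v) w).symm
          rw [h3.mul_pow, pow_mul, mul_comm n m, pow_mul]
          exact mul_mem (pow_mem h1 m) (pow_mem h2 n)
        | inv v _ hv =>
          obtain ⟨n, hn, h1⟩ := hv
          exact ⟨n, hn, by rw [inv_pow]; exact inv_mem h1⟩
      · obtain ⟨c', rfl⟩ : ∃ c', c = c' + 1 := ⟨c - 1, by omega⟩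
        have key : ∀ v ∈ closure {x | ∃ p ∈ (⊤ : Subgroup X).lowerCentralSeries c',
            ∃ q ∈ (⊤ : Subgroup X), ⁅p, q⁆ = x}, v ∈ center X ∧ ∃ n : ℕ, 0 < n ∧ v ^ n ∈ D := by
          intro v hv'
          induction hv' using closure_induction with
          | mem v hv1 =>
            obtain ⟨p, hp, q, hq1, rfl⟩ := hv1
            have hpq : ⁅p, q⁆ ∈ center X := hcen (commutator_mem_commutator hp hq1)
            refine ⟨hpq, ?_⟩
            obtain ⟨n, hn, d, hd, v, hv, h1⟩ := hq p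
            obtain ⟨m, hm, e, he, w, hw, h2⟩ := hq q
            refine ⟨n * m, Nat.mul_pos hn hm, ?_⟩
            rw [← roots_comm hpq, h1, h2, roots_cen (hcen hv) (hcen hw), commutatorElement_def]
            exact mul_mem (mul_mem (mul_mem hd he) (inv_mem hd)) (inv_mem he)
          | one => exact ⟨one_mem _, 1, one_pos, by rw [one_pow]; exact one_mem D⟩
          | mul v w _ _ hv hw =>
            obtain ⟨hvc, n, hn, h1⟩ := hv
            obtain ⟨hwc, m, hm, h2⟩ := hw
            refine ⟨mul_mem hvc hwc, n * m, Nat.mul_pos hn hm, ?_⟩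
            have h3 : Commute v w := (mem_center_iff.1 hvc w).symm
            rw [h3.mul_pow, pow_mul, mul_comm n m, pow_mul]
            exact mul_mem (pow_mem h1 m) (pow_mem h2 n)
          | inv v _ hv =>
            obtain ⟨hvc, n, hn, h1⟩ := hv
            exact ⟨inv_mem hvc, n, hn, by rw [inv_pow]; exact inv_mem h1⟩
        intro v hv
        rw [hN, Subgroup.mem_lowerCentralSeries_succ_iff] at hv
        exact (key v hv).2
    obtain ⟨n, hn, d, hd, v, hv, h1⟩ := hq x
    obtain ⟨m, hm, h2⟩ := hI v hv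
    refine ⟨n * m, Nat.mul_pos hn hm, ?_⟩
    have h3 : Commute d v := mem_center_iff.1 (hcen hv) d
    rw [pow_mul, h1, h3.mul_pow]
    exact mul_mem (pow_mem hd m) h2

/-- the nilpotent case. Let `γ k` be the lower central series. (1) For every `k` and `u ∈ γ k` there are
`n > 0` and `d ∈ D ∩ γ k` with `u ^ n ≡ d` modulo `γ (k+1)`. Induction on `k`: `γ k / γ (k+1)` is abelian;
for `k = 0` it is generated by `S`; `γ (k+1)` is generated modulo `γ (k+2)` by the `[u, s]`, `u ∈ γ k`,
`s ∈ S`, and `[u, s] ^ (n m) ≡ [u ^ n, s ^ m] ≡ [d, s ^ m]` modulo `γ (k+2)`. (2) For every `k` and `x`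
some positive power of `x` lies in `D γ k`: if `x ^ n = d u`, `u ∈ γ k`, then `u` is central modulo
`γ (k+1)`, so `(d u) ^ l ≡ d ^ l u ^ l`, and use (1). At the end `γ c = 1`. -/
theorem root_nilp {X : Type u} [Group X] (hn : Group.IsNilpotent X) {D : Subgroup X} {S : Set X}
    (hS : closure S = ⊤) (h : ∀ s ∈ S, ∃ n : ℕ, 0 < n ∧ s ^ n ∈ D) : Root D ⊤ := by
  obtain ⟨c, hc⟩ := Subgroup.nilpotent_iff_lowerCentralSeries.1 hn
  intro x _
  exact roots_aux c X hc D S hS h x

private theorem roots_finset {G : Type u} [Group G] {S : Set G} {x : G} (hx : x ∈ closure S) :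
    ∃ F : Finset G, (F : Set G) ⊆ S ∧ x ∈ closure (F : Set G) := by
  classical
  induction hx using closure_induction with
  | mem x hx => exact ⟨{x}, by simpa using hx, subset_closure (by simp)⟩
  | one => exact ⟨∅, by simp, one_mem _⟩
  | mul x y _ _ hx hy =>
    obtain ⟨F, hF, h1⟩ := hx
    obtain ⟨F', hF', h2⟩ := hy
    refine ⟨F ∪ F', by rw [Finset.coe_union]; exact Set.union_subset hF hF', ?_⟩
    rw [Finset.coe_union]
    exact mul_mem (closure_mono Set.subset_union_left h1) (closure_mono Set.subset_union_right h2)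
  | inv x _ hx =>
    obtain ⟨F, hF, h1⟩ := hx
    exact ⟨F, hF, inv_mem h1⟩

/-- `x ∈ closure S` lies in `closure S₀` for a finite `S₀ ⊆ S`, which is nilpotent; apply `root_nilp` in
it to `D ⊓ closure S₀`. -/
theorem root_mem {G : Type u} [Group G] {M : Subgroup G} (hM : LN M) {D : Subgroup G}
    (hDM : D ≤ M) {S : Set G} (hS : S ⊆ M) (h : ∀ s ∈ S, ∃ n : ℕ, 0 < n ∧ s ^ n ∈ D) :
    Root D (closure S) := by
  intro x hx
  obtain ⟨F, hF, h1⟩ := roots_finset hx
  have hnil : Group.IsNilpotent (closure (F : Set G)) := hM F (hF.trans hS)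
  have h2 := root_nilp hnil (D := D.subgroupOf (closure (F : Set G)))
    (S := ((↑) : closure (F : Set G) → G) ⁻¹' (F : Set G)) closure_closure_coe_preimage (by
      intro s hs
      obtain ⟨n, hn, h3⟩ := h _ (hF hs)
      exact ⟨n, hn, by rw [mem_subgroupOf, coe_pow]; exact h3⟩)
  obtain ⟨n, hn, h3⟩ := h2 ⟨x, h1⟩ (mem_top _)
  refine ⟨n, hn, ?_⟩
  rw [mem_subgroupOf, coe_pow] at h3
  exact h3

end Pool.Agent.Helper59.EJ
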