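import Pool.Agent.Helper59.EJ.Step
import Pool.Agent.Helper59.EJ.Roots
import Pool.Agent.Helper98.Engel.Main

/-!
# EJ-16. The main argument
-/

set_option autoImplicit false

namespace Pool.Agent.Helper59.EJ

universe u

open Pool.Agent.Helper98.Engel Subgroup

variable {G : Type u} [Group G] {T : Set G}

/-- the subgroup generated by the elements of `T` in `M` which have a power in `D` -/
def RM (T : Set G) (M D : Subgroup G) : Subgroup G :=
  closure {x | x ∈ T ∧ x ∈ M ∧ ∃ n : ℕ, 0 < n ∧ x ^ n ∈ D}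

private theorem mainM_le_RM {D M : Subgroup G} (hDM : D ≤ M)
    (hDT : closure (T ∩ (D : Set G)) = D) : D ≤ RM T M D := by
  conv_lhs => rw [← hDT]
  apply Subgroup.closure_mono
  rintro x ⟨hxT, hxD⟩
  exact ⟨hxT, hDM hxD, 1, one_pos, by rw [pow_one]; exact hxD⟩

/-- Claim A. Suppose `N ≠ M`. `D'' = closure (T ∩ (M ⊓ N)) ∈ Pairs T`; `D ≤ D''` (since
`D ≤ RM T M D ≤ N`), so `Root D D''`. So `D'' = RM T M D`. `Cx.step` gives `x` and `g`; `D'' ≤ M` and
`D'' = g D'' g⁻¹ ≤ g M g⁻¹`, so `D ≤ D'' ≤ D₃ = closure (T ∩ (M ⊓ g M g⁻¹)) ∈ Pairs T`, `Root D D₃`,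
`x ∈ D₃`, so `x ∈ RM T M D = D''`, a contradiction. (`conj_maximal`.) -/
theorem Cx.claimA (h : Cx T) {D M N : Subgroup G}
    (hmax : ∀ D' ∈ Pairs T, D ≤ D' → Root D D') (hM : Maximal (· ∈ NN T) M)
    (hN : Maximal (· ∈ NN T) N) (hDM : D ≤ M) (hDT : closure (T ∩ (D : Set G)) = D)
    (hle : RM T M D ≤ N) : N = M := by
  by_contra hne
  have hne' : M ≠ N := fun he => hne he.symm
  have hDR : D ≤ RM T M D := mainM_le_RM hDM hDT
  have hDN : D ≤ N := hDR.trans hle
  obtain ⟨x, hxT, hxM, hxD, g, hg, hgM, hxg⟩ := h.step hM hN hne'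
  have hRD : RM T M D ≤ closure (T ∩ ((M ⊓ N : Subgroup G) : Set G)) := by
    unfold RM
    rw [closure_le]
    rintro y ⟨hyT, hyM, hy⟩
    have hyN : y ∈ N := hle (subset_closure ⟨hyT, hyM, hy⟩)
    exact subset_closure ⟨hyT, mem_inf.2 ⟨hyM, hyN⟩⟩
  have hD''M : closure (T ∩ ((M ⊓ N : Subgroup G) : Set G)) ≤ M := by
    rw [closure_le]
    rintro y ⟨_, hy⟩
    exact (mem_inf.1 hy).1
  have hD''g : closure (T ∩ ((M ⊓ N : Subgroup G) : Set G)) ≤
      M.map (MulAut.conj g).toMonoidHom := by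
    intro d hd
    refine ⟨g⁻¹ * d * g, hD''M ?_, ?_⟩
    · exact (mem_normalizer_iff''.1 hg d).1 hd
    · change g * (g⁻¹ * d * g) * g⁻¹ = d
      group
  have hDD₃ : D ≤ closure (T ∩ ((M ⊓ M.map (MulAut.conj g).toMonoidHom : Subgroup G) : Set G)) := by
    conv_lhs => rw [← hDT]
    apply Subgroup.closure_mono
    rintro y ⟨hyT, hyD⟩
    exact ⟨hyT, mem_inf.2 ⟨hDM hyD, hD''g (hRD (hDR hyD))⟩⟩
  have hroot := hmax _ ⟨M, M.map (MulAut.conj g).toMonoidHom, hM, conj_maximal h.conj hM g,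
    fun he => hgM he.symm, rfl⟩ hDD₃ x (subset_closure ⟨hxT, mem_inf.2 ⟨hxM, hxg⟩⟩)
  exact hxD (hRD (subset_closure ⟨hxT, hxM, hroot⟩))

private theorem mainM_fin {X : Set G} {x : G} (hx : x ∈ closure X) :
    ∃ F : Finset G, (F : Set G) ⊆ X ∧ x ∈ closure (F : Set G) := by
  classical
  induction hx using closure_induction with
  | mem x hx => exact ⟨{x}, by simpa using hx, subset_closure (by simp)⟩
  | one => exact ⟨∅, by simp, one_mem _⟩
  | mul x y _ _ hx hy =>
    obtain ⟨F, hF, hx⟩ := hx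
    obtain ⟨F', hF', hy⟩ := hy
    refine ⟨F ∪ F', ?_, mul_mem (closure_mono ?_ hx) (closure_mono ?_ hy)⟩
    · rw [Finset.coe_union]
      exact Set.union_subset hF hF'
    · rw [Finset.coe_union]
      exact Set.subset_union_left
    · rw [Finset.coe_union]
      exact Set.subset_union_right
  | inv x _ hx =>
    obtain ⟨F, hF, hx⟩ := hx
    exact ⟨F, hF, inv_mem hx⟩

private theorem mainM_finset {X : Set G} {S : Finset G} (hS : (S : Set G) ⊆ closure X) :
    ∃ F : Finset G, (F : Set G) ⊆ X ∧ (S : Set G) ⊆ closure (F : Set G) := by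
  classical
  have h1 : ∀ s : G, ∃ F : Finset G, (F : Set G) ⊆ X ∧ (s ∈ S → s ∈ closure (F : Set G)) := by
    intro s
    by_cases hs : s ∈ S
    · obtain ⟨F, hF, hx⟩ := mainM_fin (hS hs)
      exact ⟨F, hF, fun _ => hx⟩
    · exact ⟨∅, by simp, fun h => absurd h hs⟩
  choose F hF hF2 using h1
  refine ⟨S.biUnion F, ?_, ?_⟩
  · intro y hy
    rw [Finset.mem_coe, Finset.mem_biUnion] at hy
    obtain ⟨s, _, hy⟩ := hy
    exact hF s hy
  · intro s hs
    refine closure_mono ?_ (hF2 s hs)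
    intro y hy
    rw [Finset.mem_coe, Finset.mem_biUnion]
    exact ⟨s, hs, hy⟩

/-- the join of `RM T M D` and `RM T N D`. A finite subset is contained in the join of
`A₀ = ⟨a₁, ..., aₖ, E₀⟩` and `B₀ = ⟨b₁, ..., bₗ, E₀⟩`, where `aᵢ`, `bⱼ` are among the generators and
`E₀` is a finite subset of `T ∩ D` such that `D₀ = ⟨E₀⟩` contains powers of all `aᵢ`, `bⱼ`. `Root D₀ A₀`
and `Root D₀ B₀` by `root_mem`; `Cx.join`. -/
theorem Cx.joinR (h : Cx T) {D M N : Subgroup G} (hM : Maximal (· ∈ NN T) M)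
    (hN : Maximal (· ∈ NN T) N) (hDM : D ≤ M) (hDN : D ≤ N)
    (hDT : closure (T ∩ (D : Set G)) = D) : LN (RM T M D ⊔ RM T N D) := by
  classical
  intro S hS
  have hJ : RM T M D ⊔ RM T N D = closure ({x | x ∈ T ∧ x ∈ M ∧ ∃ n : ℕ, 0 < n ∧ x ^ n ∈ D} ∪
      {x | x ∈ T ∧ x ∈ N ∧ ∃ n : ℕ, 0 < n ∧ x ^ n ∈ D}) := by
    rw [Subgroup.closure_union]
    rfl
  rw [hJ] at hS
  obtain ⟨F, hF, hSF⟩ := mainM_finset hS
  -- the finite subset of `T ∩ D`
  have h1 : ∀ a : G, ∃ E : Finset G, (E : Set G) ⊆ T ∩ (D : Set G) ∧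
      (a ∈ F → ∃ n : ℕ, 0 < n ∧ a ^ n ∈ closure (E : Set G)) := by
    intro a
    by_cases ha : a ∈ F
    · have h2 : ∃ n : ℕ, 0 < n ∧ a ^ n ∈ D := by
        rcases hF ha with h3 | h3
        · exact h3.2.2
        · exact h3.2.2
      obtain ⟨n, hn, han⟩ := h2
      rw [← hDT] at han
      obtain ⟨E, hE, hE2⟩ := mainM_fin han
      exact ⟨E, hE, fun _ => ⟨n, hn, hE2⟩⟩
    · exact ⟨∅, by simp, fun h => absurd h ha⟩
  choose E hE hE2 using h1
  set E₀ : Finset G := F.biUnion E with hE₀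
  have hE₀D : (E₀ : Set G) ⊆ T ∩ (D : Set G) := by
    intro y hy
    rw [Finset.mem_coe, hE₀, Finset.mem_biUnion] at hy
    obtain ⟨s, _, hy⟩ := hy
    exact hE s hy
  have hpow : ∀ a ∈ F, ∃ n : ℕ, 0 < n ∧ a ^ n ∈ closure (E₀ : Set G) := by
    intro a ha
    obtain ⟨n, hn, han⟩ := hE2 a ha
    refine ⟨n, hn, closure_mono ?_ han⟩
    intro y hy
    rw [Finset.mem_coe, hE₀, Finset.mem_biUnion]
    exact ⟨a, ha, hy⟩
  -- the general statement for one of the two sides
  have side : ∀ P : Subgroup G, P ∈ NN T → D ≤ P →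
      closure (((F.filter (fun x => x ∈ P) ∪ E₀ : Finset G) : Set G)) ∈ NN T ∧
      (closure (((F.filter (fun x => x ∈ P) ∪ E₀ : Finset G) : Set G)) : Subgroup G).FG ∧
      closure (E₀ : Set G) ≤ closure (((F.filter (fun x => x ∈ P) ∪ E₀ : Finset G) : Set G)) ∧
      Root (closure (E₀ : Set G))
        (closure (((F.filter (fun x => x ∈ P) ∪ E₀ : Finset G) : Set G))) := by
    intro P hP hDP
    have hsubP : (((F.filter (fun x => x ∈ P) ∪ E₀ : Finset G) : Set G)) ⊆ (P : Set G) := by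
      intro y hy
      rw [Finset.mem_coe, Finset.mem_union, Finset.mem_filter] at hy
      rcases hy with hy | hy
      · exact hy.2
      · exact hDP (hE₀D hy).2
    have hsubT : (((F.filter (fun x => x ∈ P) ∪ E₀ : Finset G) : Set G)) ⊆ T := by
      intro y hy
      rw [Finset.mem_coe, Finset.mem_union, Finset.mem_filter] at hy
      rcases hy with hy | hy
      · rcases hF hy.1 with h3 | h3
        · exact h3.1
        · exact h3.1
      · exact (hE₀D hy).1
    refine ⟨closure_mem_NN hsubT hsubP hP.1, ⟨_, rfl⟩, ?_, ?_⟩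
    · apply Subgroup.closure_mono
      rw [Finset.coe_union]
      exact Set.subset_union_right
    · refine root_mem hP.1 ?_ hsubP ?_
      · rw [closure_le]
        intro y hy
        exact hDP (hE₀D hy).2
      · intro s hs
        rw [Finset.mem_coe, Finset.mem_union, Finset.mem_filter] at hs
        rcases hs with hs | hs
        · exact hpow s hs.1
        · exact ⟨1, one_pos, by rw [pow_one]; exact subset_closure hs⟩
  obtain ⟨a1, a2, a3, a4⟩ := side M hM.prop hDM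
  obtain ⟨b1, b2, b3, b4⟩ := side N hN.prop hDN
  have hj := h.join _ _ (closure (E₀ : Set G)) a1 b1 a2 b2 ⟨_, rfl⟩ a3 b3 a4 b4
  apply hj
  refine hSF.trans ?_
  rw [SetLike.coe_subset_coe, closure_le]
  intro y hy
  rcases hF hy with h3 | h3
  · refine mem_sup_left (subset_closure ?_)
    rw [Finset.mem_coe, Finset.mem_union, Finset.mem_filter]
    exact Or.inl ⟨hy, h3.2.1⟩
  · refine mem_sup_right (subset_closure ?_)
    rw [Finset.mem_coe, Finset.mem_union, Finset.mem_filter]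
    exact Or.inl ⟨hy, h3.2.1⟩

/-- Suppose `M ≠ N`. `Cx.acc` for `Pairs T` (nonempty) gives `D ∈ Pairs T` with
`∀ D' ∈ Pairs T, D ≤ D' → Root D D'`; `D` comes from `M₁ ≠ N₁`. `RM T M₁ D ⊔ RM T N₁ D` is in `NN T`
(`joinR`), so it is contained in a maximal member `L`; by Claim A `L = M₁` and `L = N₁`. -/
theorem Cx.unique (h : Cx T) {M N : Subgroup G} (hM : Maximal (· ∈ NN T) M)
    (hN : Maximal (· ∈ NN T) N) : M = N := by
  by_contra hne
  obtain ⟨D, hD, hmax⟩ := h.acc (Pairs T) pairs_sub ⟨_, M, N, hM, hN, hne, rfl⟩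
  have hDT := (pairs_sub hD).2
  obtain ⟨M₁, N₁, hM₁, hN₁, hne₁, hDeq⟩ := hD
  have hDle : D ≤ M₁ ⊓ N₁ := by
    rw [hDeq, closure_le]
    exact Set.inter_subset_right
  have hDM : D ≤ M₁ := hDle.trans inf_le_left
  have hDN : D ≤ N₁ := hDle.trans inf_le_right
  have hLN := h.joinR hM₁ hN₁ hDM hDN hDT
  have hJ : RM T M₁ D ⊔ RM T N₁ D = closure ({x | x ∈ T ∧ x ∈ M₁ ∧ ∃ n : ℕ, 0 < n ∧ x ^ n ∈ D} ∪
      {x | x ∈ T ∧ x ∈ N₁ ∧ ∃ n : ℕ, 0 < n ∧ x ^ n ∈ D}) := by
    rw [Subgroup.closure_union]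
    rfl
  have hJN : RM T M₁ D ⊔ RM T N₁ D ∈ NN T := by
    rw [hJ] at hLN ⊢
    refine closure_mem_NN ?_ subset_closure hLN
    rintro x (hx | hx)
    · exact hx.1
    · exact hx.1
  obtain ⟨L, hL1, hL⟩ := exists_maximal hJN
  have e1 := h.claimA hmax hM₁ hL hDM hDT (le_sup_left.trans hL1)
  have e2 := h.claimA hmax hN₁ hL hDN hDT (le_sup_right.trans hL1)
  exact hne₁ (e1.symm.trans e2)

/-- as `Ctx.main` in Helper98/Engel/Main.lean -/
theorem Cx.main (h : Cx T) : LN (closure T) := by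
  have hbot : (⊥ : Subgroup G) ∈ NN T := by
    constructor
    · intro S hS
      have : closure (S : Set G) = ⊥ := by
        rw [eq_bot_iff, closure_le]; exact hS
      rw [this]; infer_instance
    · rw [eq_bot_iff, closure_le]; exact Set.inter_subset_right
  obtain ⟨M, _, hM⟩ := exists_maximal hbot
  have h1 : T ⊆ (M : Set G) := by
    intro t ht
    have h2 : closure ({t} : Set G) ∈ NN T := by
      apply closure_mem_NN (M := zpowers t) (by simpa using ht)
      · simp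
      · apply LN.of_isNilpotent
        let _ := IsCyclic.commGroup (α := zpowers t)
        have h3 : Group.IsNilpotent (zpowers t) := inferInstance
        exact h3
    obtain ⟨N, hN1, hN⟩ := exists_maximal h2
    rw [h.unique hM hN]
    exact hN1 (subset_closure rfl)
  exact hM.prop.1.mono (by rw [closure_le]; exact h1)

end Pool.Agent.Helper59.EJ
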