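import Pool.Agent.Helper59.EJ.ZAN

/-!
# EJ-4. A left Engel element normalising a locally nilpotent subgroup
-/

set_option autoImplicit false

namespace Pool.Agent.Helper59.EJ

universe u

open Pool.Agent.Helper98.Engel Subgroup

/-- elements of `M ⟨x⟩` -/
private theorem nrm_mem_sup {G : Type u} [Group G] {M : Subgroup G} {x : G}
    (hn : x ∈ normalizer (M : Set G)) {y : G} (hy : y ∈ M ⊔ zpowers x) :
    ∃ m ∈ M, ∃ k : ℤ, y = m * x ^ k := by
  have hz : zpowers x ≤ normalizer (M : Set G) := by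
    rw [zpowers_le]; exact hn
  have hk : ∀ (k : ℤ) (m : G), m ∈ M ↔ x ^ k * m * (x ^ k)⁻¹ ∈ M := fun k m =>
    mem_normalizer_iff.1 (hz (zpow_mem (mem_zpowers x) k)) m
  let P : Subgroup G :=
    { carrier := {y | ∃ m ∈ M, ∃ k : ℤ, y = m * x ^ k}
      one_mem' := ⟨1, M.one_mem, 0, by simp⟩
      mul_mem' := by
        rintro _ _ ⟨m, hm, k, rfl⟩ ⟨m', hm', k', rfl⟩
        refine ⟨m * (x ^ k * m' * (x ^ k)⁻¹), M.mul_mem hm ((hk k m').1 hm'), k + k', ?_⟩
        rw [zpow_add]
        group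
      inv_mem' := by
        rintro _ ⟨m, hm, k, rfl⟩
        refine ⟨x ^ (-k) * m⁻¹ * (x ^ (-k))⁻¹, (hk (-k) m⁻¹).1 (M.inv_mem hm), -k, ?_⟩
        group }
  have h1 : M ⊔ zpowers x ≤ P := by
    rw [sup_le_iff, zpowers_le]
    exact ⟨fun m hm => ⟨m, hm, 0, by simp⟩, ⟨1, M.one_mem, 1, by simp⟩⟩
  exact h1 hy

/-- the group `K ⟨x⟩` is a ZA-group -/
private theorem nrm_ZA {H : Type u} [Group H] (K : Subgroup H) [K.Normal]
    (hK : Group.IsNilpotent K) {x : H} (hx : IsLeftEngel x)
    (hgen : ∀ g : H, ∃ k ∈ K, ∃ m : ℤ, g = k * x ^ m) : ZA H := by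
  classical
  intro W hW hWtop
  let q : H →* H ⧸ W := QuotientGroup.mk' W
  have hq : ∀ y : H, q y = 1 ↔ y ∈ W := fun y => QuotientGroup.eq_one_iff y
  -- a sufficient condition
  have hsuff : ∀ z : H, z ∉ W → Commute (q z) (q x) → (∀ k ∈ K, Commute (q z) (q k)) →
      ∃ z : H, z ∉ W ∧ ∀ g : H, z⁻¹ * g⁻¹ * z * g ∈ W := by
    intro z hz h1 h2
    refine ⟨z, hz, fun g => ?_⟩
    obtain ⟨k, hk, m, rfl⟩ := hgen g
    rw [← hq]
    have h3 : Commute (q z) (q (k * x ^ m)) := by
      rw [map_mul, map_zpow]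
      exact (h2 k hk).mul_right (h1.zpow_right m)
    rw [map_mul, map_mul, map_mul, map_inv, map_inv]
    have h4 := h3.eq
    calc (q z)⁻¹ * (q (k * x ^ m))⁻¹ * q z * q (k * x ^ m)
        = (q z)⁻¹ * (q (k * x ^ m))⁻¹ * (q z * q (k * x ^ m)) := by group
      _ = (q z)⁻¹ * (q (k * x ^ m))⁻¹ * (q (k * x ^ m) * q z) := by rw [h4]
      _ = 1 := by group
  by_cases hKW : K ≤ W
  · refine hsuff x ?_ (Commute.refl _) ?_
    · intro hxW
      apply hWtop
      rw [eq_top_iff]
      intro g _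
      obtain ⟨k, hk, m, rfl⟩ := hgen g
      exact W.mul_mem (hKW hk) (W.zpow_mem hxW m)
    · intro k hk
      rw [(hq k).2 (hKW hk)]
      exact Commute.one_right _
  · -- an element of `K` outside of `W`, central in `K` modulo `W`
    obtain ⟨n, hn⟩ := hK.nilpotent'
    have hex : ∃ i : ℕ, ∃ a : K, a ∈ Subgroup.upperCentralSeries K i ∧ (a : H) ∉ W := by
      rw [SetLike.not_le_iff_exists] at hKW
      obtain ⟨a, ha, haW⟩ := hKW
      exact ⟨n, ⟨a, ha⟩, by rw [hn]; exact mem_top _, haW⟩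
    obtain ⟨a, ha, haW⟩ := Nat.find_spec hex
    have hmin := fun i (hi : i < Nat.find hex) => Nat.find_min hex hi
    obtain ⟨i, hi⟩ : ∃ i, Nat.find hex = i + 1 := by
      refine Nat.exists_eq_succ_of_ne_zero fun h0 => haW ?_
      rw [h0, Subgroup.upperCentralSeries_zero, mem_bot] at ha
      rw [ha]
      exact W.one_mem
    rw [hi] at ha
    have hac : ∀ k ∈ K, Commute (q (a : H)) (q k) := by
      intro k hk
      have h1 := (Subgroup.mem_upperCentralSeries_succ_iff.1 ha) ⟨k, hk⟩
      rw [commutatorElement_def] at h1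
      have h2 : ((a * ⟨k, hk⟩ * a⁻¹ * (⟨k, hk⟩ : K)⁻¹ : K) : H) ∈ W := by
        by_contra hcon
        exact hmin i (by omega) ⟨_, h1, hcon⟩
      have h3 := (hq _).2 h2
      simp only [coe_mul, coe_inv, map_mul, map_inv] at h3
      rw [mul_inv_eq_one, mul_inv_eq_iff_eq_mul] at h3
      exact h3
    -- the normal subgroup of all elements of `K` central in `K` modulo `W`
    let Z : Subgroup H := (centralizer ((K.map q : Subgroup (H ⧸ W)) : Set (H ⧸ W))).comap q ⊓ K
    have hnq : (K.map q).Normal := Normal.map inferInstance q (QuotientGroup.mk'_surjective W)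
    have hZn : Z.Normal := inferInstance
    have hZ : ∀ y : H, y ∈ Z ↔ (∀ k ∈ K, Commute (q y) (q k)) ∧ y ∈ K := by
      intro y
      show y ∈ _ ⊓ K ↔ _
      rw [mem_inf, mem_comap, mem_centralizer_iff]
      refine and_congr_left fun _ => ?_
      constructor
      · intro h k hk
        exact (h (q k) (Set.mem_image_of_mem q hk)).symm
      · rintro h _ ⟨k, hk, rfl⟩
        exact (h k hk).symm
    have haZ : (a : H) ∈ Z := (hZ _).2 ⟨hac, a.2⟩
    have hengZ : ∀ j : ℕ, eng x j (a : H) ∈ Z := by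
      intro j
      induction j with
      | zero => exact haZ
      | succ j ih =>
        rw [eng_succ]
        have h1 : (eng x j (a : H))⁻¹ * x⁻¹ * eng x j (a : H) * x =
            (eng x j (a : H))⁻¹ * (x⁻¹ * eng x j (a : H) * x⁻¹⁻¹) := by group
        rw [h1]
        exact Z.mul_mem (Z.inv_mem ih) (hZn.conj_mem _ ih _)
    have hex2 : ∃ j : ℕ, eng x j (a : H) ∈ W := by
      obtain ⟨j, hj⟩ := hx (a : H)
      exact ⟨j, by rw [hj]; exact W.one_mem⟩
    obtain ⟨j, hj⟩ : ∃ j, Nat.find hex2 = j + 1 := by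
      refine Nat.exists_eq_succ_of_ne_zero fun h0 => haW ?_
      have := Nat.find_spec hex2
      rwa [h0] at this
    have hj1 : eng x (j + 1) (a : H) ∈ W := by
      have := Nat.find_spec hex2
      rwa [hj] at this
    have hj2 : eng x j (a : H) ∉ W := Nat.find_min hex2 (by omega)
    refine hsuff _ hj2 ?_ ((hZ _).1 (hengZ j)).1
    rw [eng_succ, ← hq, map_mul, map_mul, map_mul, map_inv, map_inv] at hj1
    have h5 : q (eng x j (a : H)) * q x = q x * q (eng x j (a : H)) := by
      have h6 : q (eng x j (a : H)) * q x = (q x * q (eng x j (a : H))) *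
          ((q (eng x j (a : H)))⁻¹ * (q x)⁻¹ * q (eng x j (a : H)) * q x) := by group
      rw [h6, hj1, mul_one]
    exact h5

/-- Let `S` be a finite subset of `M ⟨x⟩`; it is contained in `⟨S₀, x⟩`, `S₀` a finite subset of `M`.
For `s ∈ S₀` all `[s, x, ..., x]` (`eng x j s`) lie in `M` and are `1` for large `j`. Let `K` be generated
by all of them (a finite set); `K ≤ M` is nilpotent. Conjugation by `x` maps `y_j = eng x j s` to
`y_j y_{j+1}`, so (descending induction on `j`) `x` normalises `K`. So `H = ⟨S₀, x⟩ = K ⟨x⟩`. `H` is a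
ZA-group: let `W ≠ H` be normal in `H`. If `K ≤ W`, then `H / W` is cyclic. Otherwise let `a ∈ K`, `a ∉ W`
be central modulo `W` in `K` (`K` is nilpotent), `a_j = eng x j a`; all `a_j` are central in `K` modulo
`W`; let `j` be the last index with `a_j ∉ W`; `a_j` is central in `H` modulo `W`. By `ZA.nilpotent` `H`
is nilpotent. -/
theorem sup_zpowers_LN {G : Type u} [Group G] {M : Subgroup G} (hM : LN M) {x : G}
    (hx : IsLeftEngel x) (hn : x ∈ normalizer (M : Set G)) : LN (M ⊔ zpowers x) := by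
  classical
  intro S hS
  -- the elements `S₀`
  have h0 : ∀ s : G, s ∈ S → ∃ m ∈ M, ∃ k : ℤ, s = m * x ^ k := fun s hs =>
    nrm_mem_sup hn (hS hs)
  choose! f hfM kk hfk using h0
  choose N hN using hx
  let T : Finset G := S.biUnion fun s => (Finset.range (N (f s) + 1)).image fun j => eng x j (f s)
  have hxconj : ∀ m : G, m ∈ M → x⁻¹ * m * x ∈ M := by
    intro m hm
    have h1 := (mem_normalizer_iff.1 (inv_mem hn) m).1 hm
    rwa [inv_inv] at h1
  have hengM : ∀ s ∈ S, ∀ j : ℕ, eng x j (f s) ∈ M := by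
    intro s hs j
    induction j with
    | zero => exact hfM s hs
    | succ j ih =>
      rw [eng_succ]
      have h1 : (eng x j (f s))⁻¹ * x⁻¹ * eng x j (f s) * x =
          (eng x j (f s))⁻¹ * (x⁻¹ * eng x j (f s) * x) := by group
      rw [h1]
      exact M.mul_mem (M.inv_mem ih) (hxconj _ ih)
  have hTM : (T : Set G) ⊆ M := by
    intro y hy
    obtain ⟨s, hs, hy2⟩ := Finset.mem_biUnion.1 (Finset.mem_coe.1 hy)
    obtain ⟨j, -, rfl⟩ := Finset.mem_image.1 hy2
    exact hengM s hs j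
  let K : Subgroup G := closure (T : Set G)
  have hKnil : Group.IsNilpotent K := hM T hTM
  have hengK : ∀ s ∈ S, ∀ j : ℕ, eng x j (f s) ∈ K := by
    intro s hs j
    by_cases hj : j ≤ N (f s)
    · refine subset_closure (Finset.mem_coe.2 (Finset.mem_biUnion.2 ⟨s, hs, ?_⟩))
      exact Finset.mem_image.2 ⟨j, Finset.mem_range.2 (Nat.lt_succ_of_le hj), rfl⟩
    · rw [eng_eq_one_of_le (not_le.1 hj).le (hN (f s))]
      exact K.one_mem
  have hconj1 : ∀ y ∈ K, x⁻¹ * y * x ∈ K := by
    intro y hy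
    have h1 : K ≤ K.comap (MulAut.conj x⁻¹).toMonoidHom := by
      show closure (T : Set G) ≤ _
      rw [closure_le]
      intro y hy
      obtain ⟨s, hs, hy2⟩ := Finset.mem_biUnion.1 (Finset.mem_coe.1 hy)
      obtain ⟨j, -, rfl⟩ := Finset.mem_image.1 hy2
      show x⁻¹ * eng x j (f s) * x⁻¹⁻¹ ∈ K
      have h2 : x⁻¹ * eng x j (f s) * x⁻¹⁻¹ = eng x j (f s) * eng x (j + 1) (f s) := by
        rw [eng_succ]; group
      rw [h2]
      exact K.mul_mem (hengK s hs j) (hengK s hs (j + 1))
    have h3 := h1 hy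
    have h4 : x⁻¹ * y * x⁻¹⁻¹ ∈ K := h3
    rwa [inv_inv] at h4
  have hconj2 : ∀ y ∈ K, x * y * x⁻¹ ∈ K := by
    intro y hy
    have h1 : K ≤ K.comap (MulAut.conj x).toMonoidHom := by
      show closure (T : Set G) ≤ _
      rw [closure_le]
      intro y hy
      obtain ⟨s, hs, hy2⟩ := Finset.mem_biUnion.1 (Finset.mem_coe.1 hy)
      obtain ⟨j, -, rfl⟩ := Finset.mem_image.1 hy2
      have key : ∀ d : ℕ, ∀ j : ℕ, N (f s) ≤ j + d → x * eng x j (f s) * x⁻¹ ∈ K := by
        intro d
        induction d with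
        | zero =>
          intro j hj
          rw [eng_eq_one_of_le (by simpa using hj) (hN (f s)), mul_one, mul_inv_cancel]
          exact K.one_mem
        | succ d ih =>
          intro j hj
          have h2 := ih (j + 1) (by omega)
          have h3 : x * eng x j (f s) * x⁻¹ =
              eng x j (f s) * (x * eng x (j + 1) (f s) * x⁻¹)⁻¹ := by
            rw [eng_succ]; group
          rw [h3]
          exact K.mul_mem (hengK s hs j) (K.inv_mem h2)
      exact key (N (f s)) j (by omega)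
    exact h1 hy
  have hxK : x ∈ normalizer (K : Set G) := by
    rw [mem_normalizer_iff]
    intro y
    refine ⟨fun hy => hconj2 y hy, fun hy => ?_⟩
    have h1 := hconj1 _ hy
    have h2 : x⁻¹ * (x * y * x⁻¹) * x = y := by group
    rwa [h2] at h1
  -- the group `H`
  let H : Subgroup G := K ⊔ zpowers x
  have hKH : K ≤ H := le_sup_left
  have hxH : x ∈ H := (le_sup_right : zpowers x ≤ H) (mem_zpowers x)
  have hSH : closure (S : Set G) ≤ H := by
    rw [closure_le]
    intro s hs
    have hs' : s ∈ S := hs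
    show s ∈ H
    rw [hfk s hs']
    exact H.mul_mem (hKH (hengK s hs' 0)) (H.zpow_mem hxH _)
  have hHn : H ≤ normalizer (K : Set G) := by
    show K ⊔ zpowers x ≤ _
    rw [sup_le_iff, zpowers_le]
    exact ⟨le_normalizer, hxK⟩
  have hKn : (K.subgroupOf H).Normal := (normal_subgroupOf_iff_le_normalizer hKH).2 hHn
  have hK' : Group.IsNilpotent (K.subgroupOf H) :=
    (Group.isNilpotent_congr (subgroupOfEquivOfLe hKH)).2 hKnil
  have hx' : IsLeftEngel (⟨x, hxH⟩ : H) := by
    intro g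
    refine ⟨N (g : G), ?_⟩
    have h1 := map_eng H.subtype (⟨x, hxH⟩ : H) g (N (g : G))
    apply H.subtype_injective
    rw [h1, map_one]
    exact hN (g : G)
  have hZA : ZA H := by
    refine nrm_ZA (K.subgroupOf H) hK' hx' fun g => ?_
    obtain ⟨k, hk, m, hg⟩ := nrm_mem_sup hxK g.2
    refine ⟨⟨k, hKH hk⟩, ?_, m, ?_⟩
    · rw [mem_subgroupOf]; exact hk
    · apply Subtype.ext
      rw [hg]
      simp
  have hfg : Group.FG H := by
    rw [Group.fg_iff_subgroup_fg]
    refine ⟨insert x T, ?_⟩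
    rw [Finset.coe_insert]
    apply le_antisymm
    · rw [closure_le]
      intro y hy
      rcases hy with rfl | hy
      · exact hxH
      · exact hKH (subset_closure hy)
    · show K ⊔ zpowers x ≤ _
      rw [sup_le_iff, zpowers_le]
      exact ⟨closure_mono (Set.subset_insert _ _), subset_closure (Set.mem_insert _ _)⟩
  exact isNilpotent_of_le hSH (hZA.nilpotent hfg)

end Pool.Agent.Helper59.EJ
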