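import Pool.Agent.Helper59.EJ.AbQ
import Pool.Agent.Helper98.Engel.Malcev3

/-!
# EJ-9. Locally nilpotent groups of finite abelian subgroup rank: rank function
-/

set_option autoImplicit false

namespace Pool.Agent.Helper59.EJ

universe u

open Pool.Agent.Helper98.Engel Subgroup

/-- the quotient by the torsion subgroup is nilpotent: `malcev` of Helper98/Engel/Malcev3, with
`tf_quot_tor`, `LNg.of_surjective`, `AbRF_quot_tor` -/
theorem quot_tor_nilp {X : Type u} [Group X] (h : LNg X) (hr : FR X) (τ : Subgroup X) [τ.Normal]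
    (hτ : ∀ x, x ∈ τ ↔ ∃ n : ℕ, 0 < n ∧ x ^ n = 1) :
    Group.IsNilpotent (X ⧸ τ) ∧ RF (⊤ : Subgroup (X ⧸ τ)) :=
  malcev (tf_quot_tor τ hτ)
    (h.of_surjective (QuotientGroup.mk' τ) (QuotientGroup.mk'_surjective τ))
    (AbRF_quot_tor h hr τ hτ)

/-- `ρ' Y = ρ (Y.map (QuotientGroup.mk' τ))`; if `y ^ n = x t`, `x ∈ Y`, `t ∈ τ` then use
`mul_torsion_pow`. -/
theorem RF_mixed {X : Type u} [Group X] (h : LNg X) (hr : FR X) : RF (⊤ : Subgroup X) := by
  obtain ⟨τ, hn, hτ⟩ := exists_tor h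
  have := hn
  obtain ⟨-, ρ, h1, h2⟩ := quot_tor_nilp h hr τ hτ
  refine ⟨fun Y => ρ (Y.map (QuotientGroup.mk' τ)), fun Y Z hYZ => h1 (map_mono hYZ), ?_⟩
  intro Y Z hYZ _ he z hz
  obtain ⟨n, hn0, y, hy, hyz⟩ := h2 _ _ (map_mono hYZ) le_top he _ (mem_map_of_mem _ hz)
  have h3 : y⁻¹ * z ^ n ∈ τ := by
    rw [← QuotientGroup.eq_one_iff]
    have h4 : (QuotientGroup.mk' τ) (y⁻¹ * z ^ n) = 1 := by
      rw [map_mul, map_inv, hyz, map_pow, inv_mul_cancel]
    exact h4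
  obtain ⟨m, hm0, hm⟩ := mul_torsion_pow h (x := y) ((hτ _).1 h3)
  refine ⟨n * m, Nat.mul_pos hn0 hm0, ?_⟩
  rw [mul_inv_cancel_left] at hm
  rw [pow_mul, hm]
  exact Y.pow_mem hy m

theorem RFm_FR_sub {G : Type u} [Group G] (hr : FR G) (M : Subgroup G) : FR M := by
  classical
  intro A hA
  obtain ⟨r, hr'⟩ := hr (A.map M.subtype) (by
    rintro _ ⟨a, ha, rfl⟩ _ ⟨b, hb, rfl⟩
    rw [← map_mul, hA a ha b hb, map_mul])
  refine ⟨r, fun H hH hfg => ?_⟩
  obtain ⟨S, hS⟩ := hfg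
  obtain ⟨T, hT, hcl⟩ := hr' (H.map M.subtype) (map_mono hH)
    ⟨S.image M.subtype, by rw [Finset.coe_image, ← MonoidHom.map_closure, hS]⟩
  have hTM : (T : Set G) ⊆ Set.range M.subtype := by
    intro t ht
    have h1 : t ∈ closure (T : Set G) := subset_closure ht
    rw [hcl] at h1
    obtain ⟨x, -, hx⟩ := h1
    exact ⟨x, hx⟩
  have hinj : Set.InjOn (M.subtype : M → G) ((M.subtype : M → G) ⁻¹' (T : Set G)) :=
    M.subtype_injective.injOn
  refine ⟨T.preimage M.subtype hinj, ?_, ?_⟩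
  · refine le_trans ?_ hT
    refine Finset.card_le_card_of_injOn M.subtype (fun x hx => ?_) M.subtype_injective.injOn
    exact Finset.mem_preimage.1 hx
  · apply map_injective M.subtype_injective
    rw [← hcl, MonoidHom.map_closure, Finset.coe_preimage,
      Set.image_preimage_eq_of_subset hTM]

theorem RF_mixed_sub {G : Type u} [Group G] (hr : FR G) {M : Subgroup G} (hM : LN M) : RF M := by
  have h2 := (RF_mixed hM.lng (RFm_FR_sub hr M)).map M.subtype
  rw [← MonoidHom.range_eq_map, range_subtype] at h2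
  exact h2

end Pool.Agent.Helper59.EJ
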