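import Pool.Agent.Helper59.EJ.Nrm

/-!
# EJ-15. Baer's step
-/

set_option autoImplicit false

namespace Pool.Agent.Helper59.EJ

universe u

open Pool.Agent.Helper98.Engel Subgroup

variable {G : Type u} [Group G] {T : Set G}

/-- `M ⟨x⟩` is locally nilpotent by `sup_zpowers_LN`, so in `NN T` (`sup_mem_NN`). -/
theorem Cx.mem_of_nr (h : Cx T) {M : Subgroup G} (hM : Maximal (· ∈ NN T) M) {x : G}
    (hx : x ∈ T) (hn : x ∈ normalizer (M : Set G)) : x ∈ M := by
  have h1 := sup_zpowers_LN hM.prop.1 (h.lft x hx) hn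
  have h2 := sup_mem_NN hM.prop hx h1 le_sup_left (mem_sup_right (mem_zpowers x))
  exact (hM.le_of_ge h2 le_sup_left) (mem_sup_right (mem_zpowers x))

/-- Baer's step. Let `D = closure (T ∩ (M ⊓ N))`; `D ≠ M`, `D ≠ N` by maximality. `Cx.nrm` gives
`x ∈ T ∩ M` and `f ∈ T ∩ N`, not in `D`, normalising `D`. `f ∉ M`, so `f` does not normalise `M`
(`mem_of_nr`). `y₀ = f`, `y_{j+1} = [y_j, x]` (`eng x j f`); all `y_j` normalise `D`. Let `k ≥ 1` be least
such that `y_k` normalises `M`, `g = y_{k-1}`. `y_k = (g⁻¹ x⁻¹ g) x`, so `g⁻¹ x g ∈ T` normalises `M`,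
so it is in `M`, so `x ∈ g M g⁻¹ ≠ M`. -/
theorem Cx.step (h : Cx T) {M N : Subgroup G} (hM : Maximal (· ∈ NN T) M)
    (hN : Maximal (· ∈ NN T) N) (hne : M ≠ N) :
    ∃ x ∈ T, x ∈ M ∧ x ∉ closure (T ∩ ((M ⊓ N : Subgroup G) : Set G)) ∧
      ∃ g ∈ normalizer ((closure (T ∩ ((M ⊓ N : Subgroup G) : Set G)) : Subgroup G) : Set G),
        M.map (MulAut.conj g).toMonoidHom ≠ M ∧ x ∈ M.map (MulAut.conj g).toMonoidHom := by
  classical
  set D : Subgroup G := closure (T ∩ ((M ⊓ N : Subgroup G) : Set G)) with hDeq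
  have hDle : D ≤ M ⊓ N := by
    rw [hDeq, closure_le]; exact Set.inter_subset_right
  have hDM : D ≤ M := hDle.trans inf_le_left
  have hDN : D ≤ N := hDle.trans inf_le_right
  have hDT : closure (T ∩ (D : Set G)) = D := by
    apply le_antisymm
    · rw [closure_le]; exact Set.inter_subset_right
    · conv_lhs => rw [hDeq]
      apply Subgroup.closure_mono
      rintro x ⟨hx, hx2⟩
      exact ⟨hx, subset_closure ⟨hx, hx2⟩⟩
  have hneM : D ≠ M := by
    intro he
    apply hne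
    apply le_antisymm (by rw [← he]; exact hDN)
    exact hM.le_of_ge hN.prop (by rw [← he]; exact hDN)
  have hneN : D ≠ N := by
    intro he
    apply hne
    apply le_antisymm
    · exact hN.le_of_ge hM.prop (by rw [← he]; exact hDM)
    · rw [← he]; exact hDM
  obtain ⟨x, hxT, hxM, hxD, hxn⟩ := h.nrm M hM.prop D hDM hDT hneM
  obtain ⟨f, hfT, hfN, hfD, hfn⟩ := h.nrm N hN.prop D hDN hDT hneN
  have hfM : f ∉ M := by
    intro hf
    exact hfD (subset_closure ⟨hfT, mem_inf.2 ⟨hf, hfN⟩⟩)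
  have hf0 : f ∉ normalizer (M : Set G) := fun hf => hfM (h.mem_of_nr hM hfT hf)
  have hy : ∀ j, eng x j f ∈ normalizer (D : Set G) := fun j => eng_mem hxn hfn j
  have hex : ∃ j, eng x j f ∈ normalizer (M : Set G) := by
    obtain ⟨k, hk⟩ := h.lft x hxT f
    exact ⟨k, by rw [hk]; exact one_mem _⟩
  obtain ⟨k, hk⟩ : ∃ k, Nat.find hex = k + 1 := by
    apply Nat.exists_eq_succ_of_ne_zero
    intro h0
    apply hf0
    have := Nat.find_spec hex
    rwa [h0] at this
  have hk1 : eng x (k + 1) f ∈ normalizer (M : Set G) := by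
    have := Nat.find_spec hex
    rwa [hk] at this
  have hk2 : eng x k f ∉ normalizer (M : Set G) := Nat.find_min hex (by omega)
  refine ⟨x, hxT, hxM, hxD, eng x k f, hy k, ?_, ?_⟩
  · intro he
    exact hk2 (mem_normalizer_iff_map_conj_eq.2 he)
  · have h3 : (eng x k f)⁻¹ * x * eng x k f = x * (eng x (k + 1) f)⁻¹ := by
      rw [eng_succ]; group
    have h4 : (eng x k f)⁻¹ * x * eng x k f ∈ normalizer (M : Set G) := by
      rw [h3]
      exact mul_mem (le_normalizer hxM) (inv_mem hk1)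
    have h5 : (eng x k f)⁻¹ * x * eng x k f ∈ M := by
      apply h.mem_of_nr hM _ h4
      have := h.conj x hxT (eng x k f)⁻¹
      rw [inv_inv] at this
      exact this
    refine ⟨_, h5, ?_⟩
    change eng x k f * ((eng x k f)⁻¹ * x * eng x k f) * (eng x k f)⁻¹ = x
    group

end Pool.Agent.Helper59.EJ
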